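import Mathlib
import Pool.Agent.Lib.MP_8f66f0_al_TreeQ.ValZ
import Pool.Agent.Lib.MP_8f66f0_al_Tree.SpecV

/-! Finitely generated domains of characteristic zero: finitely many discrete valuations detect
the elements which are integral over the integers. -/

set_option autoImplicit false

namespace Pool.Agent.TreeQ

open Pool.Agent.TreeC Polynomial

private theorem min_val (K L : Type) [Field K] [Field L] [Algebra K L]
    (v : Valuation K (WithZero (Multiplicative ℤ))) (a : L) (P : K[X]) (hP : P.Monic)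
    (h : ∀ j, v (P.coeff j) ≤ 1) (h0 : aeval a P = 0) (j : ℕ) :
    v ((minpoly K a).coeff j) ≤ 1 := by
  have hP' : ∃ P' : Polynomial v.valuationSubring, P'.Monic ∧
      P'.map (algebraMap v.valuationSubring K) = P := by
    have h4 : P ∈ Polynomial.lifts (algebraMap v.valuationSubring K) := by
      rw [Polynomial.lifts_iff_coeff_lifts]
      intro n
      exact ⟨⟨P.coeff n, h n⟩, rfl⟩
    obtain ⟨P', h5, _, h6⟩ := Polynomial.lifts_and_degree_eq_and_monic h4 hP
    exact ⟨P', h6, h5⟩
  obtain ⟨P', hP'm, hP'⟩ := hP'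
  let _ : Algebra v.valuationSubring L :=
    ((algebraMap K L).comp (algebraMap v.valuationSubring K)).toAlgebra
  have : IsScalarTower v.valuationSubring K L := IsScalarTower.of_algebraMap_eq fun _ => rfl
  have hi : IsIntegral v.valuationSubring a := by
    refine ⟨P', hP'm, ?_⟩
    have h7 : algebraMap v.valuationSubring L =
      (algebraMap K L).comp (algebraMap v.valuationSubring K) := rfl
    rw [h7, ← Polynomial.eval₂_map, hP']
    exact h0
  rw [minpoly.isIntegrallyClosed_eq_field_fractions' K hi, coeff_map]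
  exact ((minpoly v.valuationSubring a).coeff j).2

private theorem min_int (Z K L : Type) [CommRing Z] [IsDomain Z] [IsIntegrallyClosed Z] [Field K]
    [Algebra Z K] [IsFractionRing Z K] [Field L] [Algebra K L] [Algebra Z L]
    [IsScalarTower Z K L] (a : L) (h : IsIntegral Z a) (j : ℕ) :
    ∃ z : Z, algebraMap Z K z = (minpoly K a).coeff j := by
  rw [minpoly.isIntegrallyClosed_eq_field_fractions' K h, coeff_map]
  exact ⟨_, rfl⟩

private theorem min_scale (K L : Type) [Field K] [Field L] [Algebra K L] (r : K) (hr : r ≠ 0)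
    (a : L) (ha : IsIntegral K a) (j : ℕ) :
    (minpoly K (r • a)).coeff j = (minpoly K a).coeff j * r ^ ((minpoly K a).natDegree - j) := by
  rw [IsIntegrallyClosed.minpoly_smul hr ha, coeff_scaleRoots]

private theorem val_core (h2 : S_ext) (σ L : Type) [Field L]
    [Algebra (FractionRing (MvPolynomial σ ℤ)) L] [Algebra (MvPolynomial σ ℤ) L]
    [IsScalarTower (MvPolynomial σ ℤ) (FractionRing (MvPolynomial σ ℤ)) L]
    [FiniteDimensional (FractionRing (MvPolynomial σ ℤ)) L] (f : MvPolynomial σ ℤ) (hf : f ≠ 0) :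
    ∃ (n : ℕ) (w : Fin n → Valuation L (WithZero (Multiplicative ℤ))), ∀ (a : L) (k : ℕ),
      IsIntegral (MvPolynomial σ ℤ) (f ^ k • a) → (∀ i, w i a ≤ 1) → IsIntegral ℤ a := by
  classical
  obtain ⟨n, v, hv⟩ := ufdV (MvPolynomial σ ℤ) f hf
  obtain ⟨v0, hv0⟩ := vinfV σ
  have hinj : Function.Injective
      (algebraMap (MvPolynomial σ ℤ) (FractionRing (MvPolynomial σ ℤ))) :=
    IsFractionRing.injective _ _
  have : CharZero (FractionRing (MvPolynomial σ ℤ)) :=
    charZero_of_injective_algebraMap (R := MvPolynomial σ ℤ) hinj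
  let u : Option (Fin n) → Valuation (FractionRing (MvPolynomial σ ℤ))
    (WithZero (Multiplicative ℤ)) := fun o => o.elim v0 v
  have hu : ∀ o, ∃ (m : ℕ) (w : Fin m → Valuation L (WithZero (Multiplicative ℤ))),
      ∀ a : L, (∀ i, w i a ≤ 1) → ∃ P : Polynomial (FractionRing (MvPolynomial σ ℤ)),
        P.Monic ∧ (∀ j, u o (P.coeff j) ≤ 1) ∧ aeval a P = 0 := fun o => h2 _ L (u o)
  choose m w hw using hu
  obtain ⟨N, ⟨e⟩⟩ := Finite.exists_equiv_fin (Σ o : Option (Fin n), Fin (m o))
  refine ⟨N, fun i => w (e.symm i).1 (e.symm i).2, fun a k hk ha => ?_⟩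
  have ha' : ∀ (o : Option (Fin n)) (i : Fin (m o)), w o i a ≤ 1 := by
    intro o i
    have h1 : w (e.symm (e ⟨o, i⟩)).1 (e.symm (e ⟨o, i⟩)).2 a ≤ 1 := ha (e ⟨o, i⟩)
    rw [e.symm_apply_apply] at h1
    exact h1
  have hval : ∀ (o : Option (Fin n)) (j : ℕ),
      u o ((minpoly (FractionRing (MvPolynomial σ ℤ)) a).coeff j) ≤ 1 := by
    intro o j
    obtain ⟨P, hP1, hP2, hP3⟩ := hw o a (ha' o)
    exact min_val _ L (u o) a P hP1 hP2 hP3 j
  have hc : ∀ j, ∃ c : ℤ, algebraMap ℤ (FractionRing (MvPolynomial σ ℤ)) c =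
      (minpoly (FractionRing (MvPolynomial σ ℤ)) a).coeff j := by
    intro j
    obtain ⟨z, hz⟩ := min_int (MvPolynomial σ ℤ) (FractionRing (MvPolynomial σ ℤ)) L _ hk j
    have e1 : f ^ k • a =
        (algebraMap (MvPolynomial σ ℤ) (FractionRing (MvPolynomial σ ℤ)) (f ^ k)) • a := by
      rw [algebraMap_smul]
    have hr : algebraMap (MvPolynomial σ ℤ) (FractionRing (MvPolynomial σ ℤ)) (f ^ k) ≠ 0 := by
      rw [Ne, map_eq_zero_iff _ hinj]
      exact pow_ne_zero k hf
    rw [e1, min_scale _ L _ hr a (Algebra.IsIntegral.isIntegral a) j, ← map_pow, ← pow_mul,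
      map_pow] at hz
    obtain ⟨c, hc⟩ := hv _ _ z hz.symm fun i => hval (some i) j
    have h3 := hval none j
    rw [← hc] at h3
    obtain ⟨c', hc'⟩ := hv0 c h3
    refine ⟨c', ?_⟩
    rw [← hc, hc', IsScalarTower.algebraMap_apply ℤ (MvPolynomial σ ℤ)
      (FractionRing (MvPolynomial σ ℤ))]
    simp
  have h6 : minpoly (FractionRing (MvPolynomial σ ℤ)) a ∈
      Polynomial.lifts (algebraMap ℤ (FractionRing (MvPolynomial σ ℤ))) := by
    rw [Polynomial.lifts_iff_coeff_lifts]
    exact hc
  obtain ⟨T, hT, _, hTm⟩ := Polynomial.lifts_and_degree_eq_and_monic h6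
    (minpoly.monic (Algebra.IsIntegral.isIntegral a))
  refine ⟨T, hTm, ?_⟩
  have h7 : algebraMap ℤ L = (algebraMap (FractionRing (MvPolynomial σ ℤ)) L).comp
      (algebraMap ℤ (FractionRing (MvPolynomial σ ℤ))) := RingHom.ext_int _ _
  rw [h7, ← Polynomial.eval₂_map, hT]
  exact minpoly.aeval _ a

theorem val0 (h2 : S_ext) (A : Type) [CommRing A] [IsDomain A] [CharZero A]
    (hA : Algebra.FiniteType ℤ A) :
    ∃ (n : ℕ) (w : Fin n → Valuation (FractionRing A) (WithZero (Multiplicative ℤ))),
      ∀ a : A, (∀ i, w i (algebraMap A (FractionRing A) a) ≤ 1) → IsIntegral ℤ a := by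
  classical
  obtain ⟨s, hs⟩ := exists_isTranscendenceBasis ℤ A
  let φ : MvPolynomial s ℤ →ₐ[ℤ] A := MvPolynomial.aeval Subtype.val
  have hφ : Function.Injective φ := hs.1
  let _ : Algebra (MvPolynomial s ℤ) A := φ.toRingHom.toAlgebra
  have : FaithfulSMul (MvPolynomial s ℤ) A :=
    (faithfulSMul_iff_algebraMap_injective (MvPolynomial s ℤ) A).2 hφ
  have : IsScalarTower ℤ (MvPolynomial s ℤ) A := .of_algebraMap_eq' (RingHom.ext_int _ _)
  have halg : Algebra.IsAlgebraic (MvPolynomial s ℤ) A := by
    refine ⟨fun a => ?_⟩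
    obtain ⟨p, hp0, hp⟩ := hs.isAlgebraic.isAlgebraic a
    let e := hs.1.aevalEquiv
    refine ⟨p.map (e.symm : _ →+* MvPolynomial s ℤ), ?_, ?_⟩
    · rw [Ne, Polynomial.map_eq_zero_iff e.symm.injective]
      exact hp0
    · rw [aeval_def, eval₂_map]
      have h1 : (algebraMap (MvPolynomial s ℤ) A).comp (e.symm : _ →+* MvPolynomial s ℤ) =
          algebraMap (Algebra.adjoin ℤ (Set.range (Subtype.val : s → A))) A := by
        apply RingHom.ext
        intro x
        have h2 := congrArg Subtype.val (e.apply_symm_apply x)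
        rw [AlgebraicIndependent.aevalEquiv_apply_coe] at h2
        exact h2
      rw [h1]
      exact hp
  obtain ⟨S, hS⟩ := hA.out
  obtain ⟨f, hf, hfS⟩ := Algebra.IsAlgebraic.exists_integral_multiples (MvPolynomial s ℤ) S
  have hk : ∀ a : A, ∃ k : ℕ, IsIntegral (MvPolynomial s ℤ) (f ^ k • a) := by
    intro a
    have ha : a ∈ Algebra.adjoin ℤ (S : Set A) := by
      rw [hS]
      exact Algebra.mem_top
    induction ha using Algebra.adjoin_induction with
    | mem x hx => exact ⟨1, by rw [pow_one]; exact hfS x hx⟩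
    | algebraMap r =>
      refine ⟨0, ?_⟩
      rw [pow_zero, one_smul]
      have h1 : (algebraMap ℤ A) r = algebraMap (MvPolynomial s ℤ) A (algebraMap ℤ _ r) :=
        IsScalarTower.algebraMap_apply ℤ (MvPolynomial s ℤ) A r
      rw [h1]
      exact isIntegral_algebraMap
    | add x y _ _ hx hy =>
      obtain ⟨k, hk⟩ := hx
      obtain ⟨l, hl⟩ := hy
      refine ⟨k + l, ?_⟩
      rw [smul_add]
      refine IsIntegral.add ?_ ?_
      · rw [pow_add, mul_comm, mul_smul]
        exact hk.smul _
      · rw [pow_add, mul_smul]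
        exact hl.smul _
    | mul x y _ _ hx hy =>
      obtain ⟨k, hk⟩ := hx
      obtain ⟨l, hl⟩ := hy
      refine ⟨k + l, ?_⟩
      rw [pow_add, ← smul_mul_smul_comm]
      exact hk.mul hl
  -- the fields
  let _ : Algebra (FractionRing (MvPolynomial s ℤ)) (FractionRing A) :=
    FractionRing.liftAlgebra (MvPolynomial s ℤ) (FractionRing A)
  have : IsScalarTower (MvPolynomial s ℤ) (FractionRing (MvPolynomial s ℤ)) (FractionRing A) :=
    FractionRing.isScalarTower_liftAlgebra (MvPolynomial s ℤ) (FractionRing A)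
  have : Algebra.IsAlgebraic (MvPolynomial s ℤ) (FractionRing A) :=
    (IsFractionRing.isAlgebraic_iff' (MvPolynomial s ℤ) A (FractionRing A)).1 halg
  have : Algebra.IsAlgebraic (FractionRing (MvPolynomial s ℤ)) (FractionRing A) :=
    (IsFractionRing.comap_isAlgebraic_iff (A := MvPolynomial s ℤ)).1 inferInstance
  let E : IntermediateField (FractionRing (MvPolynomial s ℤ)) (FractionRing A) :=
    IntermediateField.adjoin _ ((S.image (algebraMap A (FractionRing A)) : Finset _) : Set _)
  have : FiniteDimensional (FractionRing (MvPolynomial s ℤ)) E :=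
    IntermediateField.finiteDimensional_adjoin fun x _ => Algebra.IsIntegral.isIntegral x
  have hmem : ∀ a : A, algebraMap A (FractionRing A) a ∈ E := by
    intro a
    have ha : a ∈ Algebra.adjoin ℤ (S : Set A) := by
      rw [hS]
      exact Algebra.mem_top
    induction ha using Algebra.adjoin_induction with
    | mem x hx =>
      refine IntermediateField.subset_adjoin _ _ ?_
      rw [Finset.coe_image]
      exact ⟨x, hx, rfl⟩
    | algebraMap r =>
      rw [algebraMap_int_eq, eq_intCast, map_intCast]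
      exact intCast_mem E r
    | add x y _ _ hx hy =>
      rw [map_add]
      exact E.add_mem hx hy
    | mul x y _ _ hx hy =>
      rw [map_mul]
      exact E.mul_mem hx hy
  have htop : E = ⊤ := by
    rw [eq_top_iff]
    intro x _
    obtain ⟨a, b, _, rfl⟩ := IsFractionRing.div_surjective (A := A) x
    exact E.div_mem (hmem a) (hmem b)
  have hfd : FiniteDimensional (FractionRing (MvPolynomial s ℤ))
      (⊤ : IntermediateField (FractionRing (MvPolynomial s ℤ)) (FractionRing A)) := htop ▸ this
  have : FiniteDimensional (FractionRing (MvPolynomial s ℤ)) (FractionRing A) :=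
    Module.Finite.equiv (IntermediateField.topEquiv (F := FractionRing (MvPolynomial s ℤ))
      (E := FractionRing A)).toLinearEquiv
  obtain ⟨n, w, hw⟩ := val_core h2 s (FractionRing A) f hf
  refine ⟨n, w, fun a ha => ?_⟩
  obtain ⟨k, hk⟩ := hk a
  have h1 : IsIntegral (MvPolynomial s ℤ) (f ^ k • algebraMap A (FractionRing A) a) := by
    have h2 : f ^ k • algebraMap A (FractionRing A) a =
        algebraMap A (FractionRing A) (f ^ k • a) := by
      rw [Algebra.smul_def, Algebra.smul_def, map_mul,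
        ← IsScalarTower.algebraMap_apply (MvPolynomial s ℤ) A (FractionRing A)]
    rw [h2]
    exact hk.algebraMap
  obtain ⟨T, hT, hT0⟩ := hw _ k h1 ha
  refine ⟨T, hT, ?_⟩
  apply IsFractionRing.injective A (FractionRing A)
  rw [map_zero, Polynomial.hom_eval₂, ← hT0]
  congr 1
  exact RingHom.ext_int _ _

end Pool.Agent.TreeQ
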