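import Pool.Agent.Lib.MP_8f66f0_al_TreeQ.Spec
import Pool.Agent.Lib.MP_8f66f0_al_Tree.Ab

/-! Extensions by torsion free abelian groups. (helper57) -/

set_option autoImplicit false

namespace Pool.Agent.TreeQ

open Pool.Agent.TreeC Pointwise

private def lastHom (r : ℕ) : Multiplicative (Fin (r + 1) → ℤ) →* Multiplicative ℤ :=
  AddMonoidHom.toMultiplicative (Pi.evalAddMonoidHom (fun _ => ℤ) (Fin.last r))

private def initHom (r : ℕ) : Multiplicative (Fin (r + 1) → ℤ) →* Multiplicative (Fin r → ℤ) :=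
  AddMonoidHom.toMultiplicative
    { toFun := fun v i => v i.castSucc, map_zero' := rfl, map_add' := fun _ _ => rfl }

private theorem eq_one_of_init_last {r : ℕ} (v : Multiplicative (Fin (r + 1) → ℤ))
    (h1 : lastHom r v = 1) (h2 : initHom r v = 1) : v = 1 := by
  have h3 : Multiplicative.toAdd v = 0 := by
    funext i
    induction i using Fin.lastCases with
    | last => exact h1
    | cast i =>
      have h4 : (fun i : Fin r => Multiplicative.toAdd v i.castSucc) = 0 := h2
      exact congrFun h4 i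
  exact h3

private def kerEquiv {G A B : Type} [Group G] [Group A] [Group B] (H : Subgroup G) (f : G →* A)
    (f' : H →* B) (h1 : ∀ g, f g = 1 → ∃ hg : g ∈ H, f' ⟨g, hg⟩ = 1)
    (h2 : ∀ g : H, f' g = 1 → f g = 1) : f.ker ≃* f'.ker where
  toFun x := ⟨⟨x.1, (h1 x.1 x.2).fst⟩, (h1 x.1 x.2).snd⟩
  invFun y := ⟨y.1.1, h2 y.1 y.2⟩
  left_inv _ := rfl
  right_inv _ := rfl
  map_mul' _ _ := rfl

theorem zr : S_zr := by
  intro P hP r
  induction r with
  | zero =>
    intro G _ f hK
    have h1 : f.ker = ⊤ := by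
      ext g
      refine ⟨fun _ => Subgroup.mem_top g, fun _ => ?_⟩
      rw [MonoidHom.mem_ker]
      have h2 : Multiplicative.toAdd (f g) = 0 := by
        funext i
        exact i.elim0
      exact h2
    exact hP.iso f.ker G ((MulEquiv.subgroupCongr h1).trans Subgroup.topEquiv) hK
  | succ r ih =>
    intro G _ f hK
    refine hP.ext_int ((lastHom r).comp f) ?_
    refine ih _ ((initHom r).comp (f.comp ((lastHom r).comp f).ker.subtype)) ?_
    refine hP.iso f.ker _ (kerEquiv _ f _ ?_ ?_) hK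
    · intro g hg
      refine ⟨?_, ?_⟩
      · rw [MonoidHom.mem_ker, MonoidHom.comp_apply, hg, map_one]
      · change initHom r (f g) = 1
        rw [hg, map_one]
    · intro g hg
      exact eq_one_of_init_last _ g.2 hg

private theorem fg_equiv {B : Type} [CommGroup B]
    (ht : ∀ (g : B) (n : ℕ), 0 < n → g ^ n = 1 → g = 1) (hG : Group.FG B) :
    ∃ r : ℕ, Nonempty (B ≃* Multiplicative (Fin r → ℤ)) := by
  have h1 : Module.Finite ℤ (Additive B) :=
    Module.Finite.iff_addGroup_fg.2 (GroupFG.iff_add_fg.1 hG)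
  have h2 : Module.IsTorsionFree ℤ (Additive B) := by
    refine ⟨fun r hr x y hxy => ?_⟩
    have h0 : r ≠ 0 := hr.ne_zero
    have h3 : r • (x - y) = 0 := by
      rw [smul_sub, sub_eq_zero]
      exact hxy
    have h4 : r.natAbs • (x - y) = 0 := by
      rcases Int.natAbs_eq r with h | h
      · rw [h, natCast_zsmul] at h3
        exact h3
      · rw [h, neg_smul, natCast_zsmul, neg_eq_zero] at h3
        exact h3
    have h5 : x - y = 0 := ht (x - y).toMul r.natAbs (Int.natAbs_pos.2 h0) h4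
    exact sub_eq_zero.1 h5
  have h3 : Module.Free ℤ (Additive B) := Module.free_of_finite_type_torsion_free'
  let b := Module.finBasis ℤ (Additive B)
  exact ⟨_, ⟨AddEquiv.toMultiplicativeRight b.equivFun.toAddEquiv⟩⟩

theorem zab (h : S_zr) : S_zab := by
  intro P hP G A _ _ f ht hK
  refine hP.directed G {K | ∃ B : Subgroup A, B.FG ∧ K = B.comap f}
    ⟨_, ⊥, Subgroup.FG.bot, rfl⟩ ?_ ?_ ?_
  · rintro _ ⟨B, hB, rfl⟩ _ ⟨C, hC, rfl⟩
    exact ⟨_, ⟨B ⊔ C, Subgroup.FG.sup hB hC, rfl⟩, Subgroup.comap_mono le_sup_left,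
      Subgroup.comap_mono le_sup_right⟩
  · intro g
    exact ⟨_, ⟨Subgroup.zpowers (f g), ⟨{f g}, by
      rw [Finset.coe_singleton, Subgroup.zpowers_eq_closure]⟩, rfl⟩, Subgroup.mem_zpowers (f g)⟩
  · rintro _ ⟨B, hB, rfl⟩
    obtain ⟨r, ⟨e⟩⟩ := fg_equiv (B := B) (fun g n hn hg => Subtype.ext (ht g n hn (by
      have := congrArg Subtype.val hg
      exact this))) ((Group.fg_iff_subgroup_fg B).2 hB)
    let f' : B.comap f →* B := (f.comp (B.comap f).subtype).codRestrict B (fun x => x.2)
    refine h P hP r (B.comap f) (e.toMonoidHom.comp f') ?_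
    refine hP.iso f.ker _ (kerEquiv _ f _ ?_ ?_) hK
    · intro g hg
      have hgm : g ∈ B.comap f := by
        rw [Subgroup.mem_comap, hg]
        exact B.one_mem
      refine ⟨hgm, ?_⟩
      have h1 : f' ⟨g, hgm⟩ = 1 := Subtype.ext hg
      rw [MonoidHom.comp_apply, h1, map_one]
    · intro g hg
      have h1 : e (f' g) = 1 := hg
      have h2 : f' g = 1 := by
        rw [← map_one e] at h1
        exact e.injective h1
      exact congrArg Subtype.val h2

end Pool.Agent.TreeQ
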