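import Mathlib
import Pool.Agent.Lib.MP_8f66f0_al_Tree.SpecE

/-! Statements: torsion free subgroups of `GL_2` of a field of rational functions over `ℚ` (in any
number of variables) belong to every class of groups which is closed under actions on trees. -/

set_option autoImplicit false

namespace Pool.Agent.TreeQ

open Pool.Agent.TreeC Pointwise

/-! ### Extensions -/

/-- Groups with a homomorphism to `ℤ^r` whose kernel is in the class. Induction on `r`; for one
homomorphism to `ℤ` the group acts on the line: `V = ℤ`, cuts `{n | k ≤ n}` and complements, all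
stabilizers are the kernel. -/
def S_zr : Prop :=
  ∀ (P : (G : Type) → [Group G] → Prop), TCl P → ∀ (r : ℕ) (G : Type) [Group G]
    (f : G →* Multiplicative (Fin r → ℤ)), P f.ker → P G

/-- Groups with a homomorphism to a torsion free abelian group whose kernel is in the class:
directed union of the preimages of the finitely generated subgroups, which are free. -/
def S_zab : Prop :=
  ∀ (P : (G : Type) → [Group G] → Prop), TCl P → ∀ (G A : Type) [Group G] [CommGroup A]
    (f : G →* A), (∀ (a : A) (n : ℕ), 0 < n → a ^ n = 1 → a = 1) → P f.ker → P G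

/-! ### Reducible groups -/

/-- If any two elements have a common eigenvector over the algebraic closure, then the group has
one. (Let `ρ g` be not scalar. If it has only one eigenline, this is it. Otherwise it has two, and
the group is the union of their stabilizers, so equal to one of them.) -/
def S_line : Prop :=
  ∀ (K G : Type) [Field K] [Group G] (ρ : G →* Matrix.GeneralLinearGroup (Fin 2) K),
    Function.Injective ρ →
    (∀ g h : G, Matrix.det ((ρ g : Matrix (Fin 2) (Fin 2) K) * (ρ h : Matrix (Fin 2) (Fin 2) K) -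
      (ρ h : Matrix (Fin 2) (Fin 2) K) * (ρ g : Matrix (Fin 2) (Fin 2) K)) = 0) →
    ∃ (L : Type) (_ : Field L) (ρ' : G →* Matrix.GeneralLinearGroup (Fin 2) L),
      Function.Injective ρ' ∧ ∀ g : G, (ρ' g : Matrix (Fin 2) (Fin 2) L) 1 0 = 0

/-- Torsion free groups of upper triangular matrices. Let `V` be the subgroup of all `g` whose two
eigenvalues are roots of unity (the kernel of a homomorphism to a torsion free abelian group). If
the eigenvalues of `g ∈ V` are different, then `g ^ m = u` is unipotent and commutes with `g`, so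
`u = 1`, `g = 1`, no. So `V` is abelian: `S_abP`, `S_zab`. -/
def S_tri : Prop :=
  ∀ (P : (G : Type) → [Group G] → Prop), TCl P → ∀ (L G : Type) [Field L] [Group G]
    (ρ : G →* Matrix.GeneralLinearGroup (Fin 2) L), Function.Injective ρ →
    (∀ (g : G) (n : ℕ), 0 < n → g ^ n = 1 → g = 1) →
    (∀ g : G, (ρ g : Matrix (Fin 2) (Fin 2) L) 1 0 = 0) → P G

/-! ### Irreducible groups with integral traces -/

/-- A homomorphism `φ : R → ℚ` is injective on an irreducible group with integral traces: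
`φ` preserves traces and determinants, `det (g h - h g)` is a polynomial in `tr g`, `tr h`,
`tr (g h)`, `det g`, `det h`; if `φ c = 1` then `tr (c b) = tr b` for `b = 1, g, h, g h`, which are
linearly independent (the determinant of these four vectors is `± det (g h - h g)`). -/
def S_inj : Prop :=
  ∀ (R G : Type) [CommRing R] [IsDomain R] [Group G] (φ : R →+* ℚ)
    (ρ : G →* Matrix.GeneralLinearGroup (Fin 2) R), Function.Injective ρ →
    (∀ g : G, ∃ z : ℤ, Matrix.trace (ρ g : Matrix (Fin 2) (Fin 2) R) = (z : R)) →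
    (∀ g : G, Matrix.det (ρ g : Matrix (Fin 2) (Fin 2) R) = 1 ∨
      Matrix.det (ρ g : Matrix (Fin 2) (Fin 2) R) = -1) →
    (∃ g h : G, Matrix.det ((ρ g : Matrix (Fin 2) (Fin 2) R) * (ρ h : Matrix (Fin 2) (Fin 2) R) -
      (ρ h : Matrix (Fin 2) (Fin 2) R) * (ρ g : Matrix (Fin 2) (Fin 2) R)) ≠ 0) →
    ∃ ρ' : G →* Matrix.GeneralLinearGroup (Fin 2) ℚ, Function.Injective ρ' ∧
      (∀ g : G, ∃ z : ℤ, Matrix.trace (ρ' g : Matrix (Fin 2) (Fin 2) ℚ) = (z : ℚ)) ∧
      ∃ g h : G, Matrix.det ((ρ' g : Matrix (Fin 2) (Fin 2) ℚ) *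
        (ρ' h : Matrix (Fin 2) (Fin 2) ℚ) -
        (ρ' h : Matrix (Fin 2) (Fin 2) ℚ) * (ρ' g : Matrix (Fin 2) (Fin 2) ℚ)) ≠ 0

/-- An irreducible subgroup of `GL_2(ℚ)` with integral traces preserves a lattice: the entries of
all its elements have a bounded denominator `N` (Cramer's rule for `tr (e b)`, `b = 1, g, h, g h`),
so the sum of all `e ℤ²` is a lattice in `(1/N) ℤ²`. -/
def S_lat : Prop :=
  ∀ (G : Type) [Group G] (ρ : G →* Matrix.GeneralLinearGroup (Fin 2) ℚ), Function.Injective ρ →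
    (∀ g : G, ∃ z : ℤ, Matrix.trace (ρ g : Matrix (Fin 2) (Fin 2) ℚ) = (z : ℚ)) →
    (∃ g h : G, Matrix.det ((ρ g : Matrix (Fin 2) (Fin 2) ℚ) * (ρ h : Matrix (Fin 2) (Fin 2) ℚ) -
      (ρ h : Matrix (Fin 2) (Fin 2) ℚ) * (ρ g : Matrix (Fin 2) (Fin 2) ℚ)) ≠ 0) →
    ∃ σ : G →* Matrix.GeneralLinearGroup (Fin 2) ℤ, Function.Injective σ

/-! ### The Farey tree -/

/-- `GL_2(ℤ)`. -/
abbrev GZ : Type := Matrix.GeneralLinearGroup (Fin 2) ℤ

/-- The vertices of the Farey tree (with several names for the same vertex): `(u, true)` is the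
triangle with the vertices `u₁, u₂, - u₁ - u₂`, and `(u, false)` is the midpoint of the edge with
the vertices `u₁, u₂`, for the columns `u₁, u₂` of `u`. -/
@[ext] structure FV where
  u : GZ
  t : Bool

instance : MulAction GZ FV where
  smul g x := ⟨g * x.u, x.t⟩
  one_smul x := by
    change (⟨1 * x.u, x.t⟩ : FV) = x
    rw [one_mul]
  mul_smul g h x := by
    change (⟨g * h * x.u, x.t⟩ : FV) = ⟨g * (h * x.u), x.t⟩
    rw [mul_assoc]

theorem FV.smul_def (g : GZ) (x : FV) : g • x = ⟨g * x.u, x.t⟩ := rfl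

/-- The quadratic forms with the Gram matrices `[[2, -1], [-1, 2]]` and `1`. -/
def gm (t : Bool) (a b : Fin 2 → ℤ) : ℤ :=
  if t then 2 * (a 0 * b 0) - (a 0 * b 1 + a 1 * b 0) + 2 * (a 1 * b 1) else a 0 * b 0 + a 1 * b 1

/-- The form of the vertex `x` at the columns `i`, `j` of `p`. -/
def qf (x : FV) (p : GZ) (i j : Fin 2) : ℤ :=
  gm x.t (fun k => ((x.u⁻¹ * p : GZ) : Matrix (Fin 2) (Fin 2) ℤ) k i)
    (fun k => ((x.u⁻¹ * p : GZ) : Matrix (Fin 2) (Fin 2) ℤ) k j)

/-- The cut of the edge from the midpoint `(p, false)` to the triangle `(p, true)`. -/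
def Fc (p : GZ) : Set FV := {x | qf x p 0 1 < 0}

/-- The cuts of the Farey tree. -/
def fcuts : Set (Set FV) := {h | ∃ p : GZ, h = Fc p ∨ h = (Fc p)ᶜ}

/-- Any two cuts are nested. (Put `c = p⁻¹ p'`, `A = c₀₀ c₀₁`, `B = c₁₀ c₁₁`,
`S = c₀₀ c₁₁ + c₁₀ c₀₁`; then `4 A B = S² - 1 ≥ 0`, `qf x p' 0 1 = A q₀₀ + S q₀₁ + B q₁₁`.) -/
def S_fnest : Prop :=
  ∀ p p' : GZ, Fc p ⊆ Fc p' ∨ Fc p ⊆ (Fc p')ᶜ ∨ (Fc p)ᶜ ⊆ Fc p' ∨ (Fc p)ᶜ ⊆ (Fc p')ᶜ

/-- Finitely many cuts separate two vertices. (Mixed discriminant: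
`qf x p 0 0 * qf y p 1 1 + qf x p 1 1 * qf y p 0 0 - 2 * qf x p 0 1 * qf y p 0 1` does not depend
on `p`.) -/
def S_ffin : Prop :=
  ∀ x y : FV, {p : GZ | x ∈ Fc p ∧ y ∉ Fc p}.Finite

/-- The edge from `(p, true)` to `(p, false)` crosses only the cut `Fc p`. -/
def S_fadj : Prop := ∀ p : GZ, Adj fcuts (Fc p) ⟨p, true⟩ ⟨p, false⟩

/-- The Farey tree (no inversions: the ends `(p, true)`, `(p, false)` of an edge are of different
type, and vertices of different type are separated by a cut). -/
def S_fsys : Prop := CutSys GZ FV fcuts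

/-- The stabilizers are finite. -/
def S_fstab : Prop := ∀ x : FV, {g : GZ | Eqv fcuts (g • x) x}.Finite

/-! ### Valuations -/

/-- In a factorial domain the valuations at the prime factors of `f` detect the elements of `A`
among the fractions with denominator a power of `f`. -/
def S_ufd : Prop :=
  ∀ (A : Type) [CommRing A] [IsDomain A] [UniqueFactorizationMonoid A] (f : A), f ≠ 0 →
    ∃ (n : ℕ) (w : Fin n → EVal (FractionRing A)), ∀ (x : FractionRing A) (k : ℕ) (b : A),
      x * algebraMap A (FractionRing A) f ^ k = algebraMap A (FractionRing A) b →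
      (∀ i, 0 ≤ (w i).w x) → ∃ a : A, x = algebraMap A (FractionRing A) a

/-- The total degree. -/
def S_vinfZ : Prop :=
  ∀ (σ : Type), ∃ w : EVal (FractionRing (MvPolynomial σ ℤ)), ∀ f : MvPolynomial σ ℤ,
    0 ≤ w.w (algebraMap (MvPolynomial σ ℤ) (FractionRing (MvPolynomial σ ℤ)) f) →
      ∃ c : ℤ, f = MvPolynomial.C c

/-- A finitely generated ring of rational functions: common denominator, and evaluation at an
integral point where the denominator is not zero. -/
def S_loc : Prop :=
  ∀ (σ R : Type) [CommRing R] (j : R →+* FractionRing (MvPolynomial σ ℤ)),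
    Function.Injective j → Algebra.FiniteType ℤ R →
    Nonempty (R →+* ℚ) ∧ ∃ f : MvPolynomial σ ℤ, f ≠ 0 ∧
      ∀ a : R, ∃ (k : ℕ) (b : MvPolynomial σ ℤ),
        j a * algebraMap (MvPolynomial σ ℤ) (FractionRing (MvPolynomial σ ℤ)) f ^ k =
          algebraMap (MvPolynomial σ ℤ) (FractionRing (MvPolynomial σ ℤ)) b

/-- The theorem. -/
def S_glQ : Prop :=
  ∀ (P : (G : Type) → [Group G] → Prop), TCl P → ∀ (σ R : Type) [CommRing R]
    (j : R →+* FractionRing (MvPolynomial σ ℤ)), Function.Injective j →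
    ∀ Γ : Subgroup (Matrix.GeneralLinearGroup (Fin 2) R),
      (∀ g ∈ Γ, ∀ n : ℕ, 0 < n → g ^ n = 1 → g = 1) → P Γ

end Pool.Agent.TreeQ
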