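import Mathlib
import Pool.Agent.Lib.MP_8f66f0_al_TreeQ.Spec

/-! Farey tree: finitely many cuts separate two vertices, and the stabilizers are finite. -/

set_option autoImplicit false

namespace Pool.Agent.TreeQ

open Pool.Agent.TreeC

private theorem det_sq (c : GZ) :
    ((c : Matrix (Fin 2) (Fin 2) ℤ) 0 0 * (c : Matrix (Fin 2) (Fin 2) ℤ) 1 1 -
      (c : Matrix (Fin 2) (Fin 2) ℤ) 0 1 * (c : Matrix (Fin 2) (Fin 2) ℤ) 1 0) ^ 2 = 1 := by
  have h := (Matrix.isUnit_iff_isUnit_det _).1 c.isUnit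
  rw [Int.isUnit_iff_natAbs_eq, Matrix.det_fin_two] at h
  rw [← Int.natAbs_sq, h]
  norm_num

/-- the value of the form at one column bounds the entries -/
private theorem gm_bd (t : Bool) (a : Fin 2 → ℤ) (M : ℤ) (h : gm t a a ≤ M) (i : Fin 2) :
    |a i| ≤ M := by
  have key : a 0 ^ 2 ≤ M ∧ a 1 ^ 2 ≤ M := by
    unfold gm at h
    cases t
    · simp only [Bool.false_eq_true, if_false] at h
      constructor <;> nlinarith [sq_nonneg (a 0), sq_nonneg (a 1)]
    · simp only [if_true] at h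
      constructor <;> nlinarith [sq_nonneg (a 0), sq_nonneg (a 1), sq_nonneg (a 0 - a 1)]
  have h2 : a i ^ 2 ≤ M := by
    fin_cases i
    · exact key.1
    · exact key.2
  have h3 : |a i| ≤ |a i| ^ 2 := by
    have := abs_nonneg (a i)
    rcases this.eq_or_lt with h4 | h4
    · rw [← h4]; norm_num
    · nlinarith
  rw [sq_abs] at h3
  exact h3.trans h2

/-- a set of matrices with bounded entries is finite -/
private theorem fin_bd (S : Set GZ) (M : ℤ) (h : ∀ c ∈ S, ∀ i j : Fin 2,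
    |(c : Matrix (Fin 2) (Fin 2) ℤ) i j| ≤ M) : S.Finite := by
  have hf : (Set.Icc (fun _ _ => -M) (fun _ _ => M) : Set (Fin 2 → Fin 2 → ℤ)).Finite :=
    Set.finite_Icc _ _
  refine Set.Finite.of_finite_image (f := fun c : GZ => fun i j =>
    (c : Matrix (Fin 2) (Fin 2) ℤ) i j) (hf.subset ?_) ?_
  · rintro _ ⟨c, hc, rfl⟩
    exact ⟨fun i j => (abs_le.1 (h c hc i j)).1, fun i j => (abs_le.1 (h c hc i j)).2⟩
  · intro c _ d _ hcd
    exact Units.ext (by ext i j; exact congrFun (congrFun hcd i) j)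

private theorem qf_pos (x : FV) (p : GZ) (i : Fin 2) : 0 < qf x p i i := by
  have h := det_sq (x.u⁻¹ * p)
  unfold qf gm
  generalize ((x.u⁻¹ * p : GZ) : Matrix (Fin 2) (Fin 2) ℤ) = c at h
  by_contra hc
  have h0 : c 0 i = 0 ∧ c 1 i = 0 := by
    cases hx : x.t
    · rw [hx] at hc
      simp only [Bool.false_eq_true, if_false] at hc
      constructor <;> nlinarith [sq_nonneg (c 0 i), sq_nonneg (c 1 i)]
    · rw [hx] at hc
      simp only [if_true] at hc
      constructor <;> nlinarith [sq_nonneg (c 0 i), sq_nonneg (c 1 i), sq_nonneg (c 0 i - c 1 i)]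
  fin_cases i
  · simp only [Fin.zero_eta] at h0
    rw [h0.1, h0.2] at h
    norm_num at h
  · simp only [Fin.mk_one] at h0
    rw [h0.1, h0.2] at h
    norm_num at h

private def col (c : Matrix (Fin 2) (Fin 2) ℤ) (j : Fin 2) : Fin 2 → ℤ := fun k => c k j

/-- the mixed discriminant -/
private def md (s t : Bool) (w : Matrix (Fin 2) (Fin 2) ℤ) : ℤ :=
  gm s (col 1 0) (col 1 0) * gm t (col w 1) (col w 1) +
    gm s (col 1 1) (col 1 1) * gm t (col w 0) (col w 0) -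
    2 * (gm s (col 1 0) (col 1 1) * gm t (col w 0) (col w 1))

private theorem mixed (s t : Bool) (c w : Matrix (Fin 2) (Fin 2) ℤ) :
    gm s (col c 0) (col c 0) * gm t (col (w * c) 1) (col (w * c) 1) +
      gm s (col c 1) (col c 1) * gm t (col (w * c) 0) (col (w * c) 0) -
      2 * (gm s (col c 0) (col c 1) * gm t (col (w * c) 0) (col (w * c) 1)) =
    (c 0 0 * c 1 1 - c 0 1 * c 1 0) ^ 2 * md s t w := by
  unfold md
  cases s <;> cases t <;>
    simp only [gm, col, Matrix.mul_apply, Fin.sum_univ_two, Matrix.one_apply, if_true,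
      Bool.false_eq_true, if_false, zero_ne_one, one_ne_zero] <;> ring

private theorem qf_eq (x : FV) (p : GZ) (i j : Fin 2) : qf x p i j =
    gm x.t (col ((x.u⁻¹ * p : GZ) : Matrix (Fin 2) (Fin 2) ℤ) i)
      (col ((x.u⁻¹ * p : GZ) : Matrix (Fin 2) (Fin 2) ℤ) j) := rfl

theorem ffin : S_ffin := by
  intro x y
  set M : ℤ := md x.t y.t ((y.u⁻¹ * x.u : GZ) : Matrix (Fin 2) (Fin 2) ℤ) with hM
  have hfin := fin_bd ((fun p : GZ => x.u⁻¹ * p) '' {p : GZ | x ∈ Fc p ∧ y ∉ Fc p}) M (by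
    rintro _ ⟨p, ⟨h1, h2⟩, rfl⟩ i j
    have h1' : qf x p 0 1 < 0 := h1
    have h2' : 0 ≤ qf y p 0 1 := not_lt.1 h2
    have hc := det_sq (x.u⁻¹ * p)
    have hm := mixed x.t y.t ((x.u⁻¹ * p : GZ) : Matrix (Fin 2) (Fin 2) ℤ)
      ((y.u⁻¹ * x.u : GZ) : Matrix (Fin 2) (Fin 2) ℤ)
    have hw : ((y.u⁻¹ * x.u : GZ) : Matrix (Fin 2) (Fin 2) ℤ) *
        ((x.u⁻¹ * p : GZ) : Matrix (Fin 2) (Fin 2) ℤ) =
        ((y.u⁻¹ * p : GZ) : Matrix (Fin 2) (Fin 2) ℤ) := by
      rw [← Units.val_mul]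
      congr 1
      group
    rw [hw, hc, one_mul, ← hM, ← qf_eq, ← qf_eq, ← qf_eq, ← qf_eq, ← qf_eq, ← qf_eq] at hm
    have a0 := qf_pos x p 0
    have a1 := qf_pos x p 1
    have b0 := qf_pos y p 0
    have b1 := qf_pos y p 1
    have hs : qf x p 0 1 * qf y p 0 1 ≤ 0 := mul_nonpos_of_nonpos_of_nonneg h1'.le h2'
    have hb : qf x p j j ≤ M := by
      fin_cases j
      · show qf x p 0 0 ≤ M
        nlinarith [mul_pos a1 b0, mul_le_mul_of_nonneg_left (show (1 : ℤ) ≤ qf y p 1 1 from b1) a0.le]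
      · show qf x p 1 1 ≤ M
        nlinarith [mul_pos a0 b1, mul_le_mul_of_nonneg_left (show (1 : ℤ) ≤ qf y p 0 0 from b0) a1.le]
    exact gm_bd x.t _ M hb i)
  exact Set.Finite.of_finite_image hfin (fun a _ b _ h => mul_left_cancel h)

private def c1 : GZ := ⟨!![0, -1; 1, -1], !![-1, 1; -1, 0], by decide, by decide⟩

private def c2 : GZ := ⟨!![-1, 1; -1, 0], !![0, -1; 1, -1], by decide, by decide⟩

private def c3 : GZ := ⟨!![1, 0; 0, -1], !![1, 0; 0, -1], by decide, by decide⟩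

private theorem three (u v w : ℤ) (hu : 0 < u) (hv : 0 < v) (hw : 0 < w)
    (h : u * v + u * w + w * v = 3) : u = 1 ∧ v = 1 ∧ w = 1 := by
  refine ⟨?_, ?_, ?_⟩ <;> nlinarith [mul_pos hu hv, mul_pos hu hw, mul_pos hw hv]

theorem fstab : S_fstab := by
  intro x
  have hfin := fin_bd ((fun g : GZ => x.u⁻¹ * (g⁻¹ * x.u)) '' {g : GZ | Eqv fcuts (g • x) x}) 2 (by
    rintro _ ⟨g, hg, rfl⟩ i j
    have hg' : Eqv fcuts (g • x) x := hg
    set k : GZ := x.u⁻¹ * (g⁻¹ * x.u) with hk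
    have key : ∀ c : GZ, gm x.t (col ((k * c : GZ) : Matrix (Fin 2) (Fin 2) ℤ) 0)
        (col ((k * c : GZ) : Matrix (Fin 2) (Fin 2) ℤ) 1) < 0 ↔
        gm x.t (col (c : Matrix (Fin 2) (Fin 2) ℤ) 0) (col (c : Matrix (Fin 2) (Fin 2) ℤ) 1) < 0 := by
      intro c
      have h1 := hg' (Fc (x.u * c)) ⟨x.u * c, Or.inl rfl⟩
      have h2 : (g • x ∈ Fc (x.u * c)) ↔ gm x.t (col ((k * c : GZ) : Matrix (Fin 2) (Fin 2) ℤ) 0)
          (col ((k * c : GZ) : Matrix (Fin 2) (Fin 2) ℤ) 1) < 0 := by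
        change qf (g • x) (x.u * c) 0 1 < 0 ↔ _
        rw [qf_eq, FV.smul_def]
        have h3 : ((g * x.u)⁻¹ * (x.u * c) : GZ) = k * c := by
          rw [hk]; group
        change gm x.t (col (((g * x.u)⁻¹ * (x.u * c) : GZ) : Matrix (Fin 2) (Fin 2) ℤ) 0)
          (col (((g * x.u)⁻¹ * (x.u * c) : GZ) : Matrix (Fin 2) (Fin 2) ℤ) 1) < 0 ↔ _
        rw [h3]
      have h4 : (x ∈ Fc (x.u * c)) ↔ gm x.t (col (c : Matrix (Fin 2) (Fin 2) ℤ) 0)
          (col (c : Matrix (Fin 2) (Fin 2) ℤ) 1) < 0 := by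
        change qf x (x.u * c) 0 1 < 0 ↔ _
        rw [qf_eq, inv_mul_cancel_left]
      rw [← h2, ← h4]
      exact h1
    have hd := det_sq k
    have hb : gm x.t (col (k : Matrix (Fin 2) (Fin 2) ℤ) j)
        (col (k : Matrix (Fin 2) (Fin 2) ℤ) j) ≤ 2 := by
      have k0 := key 1
      have k1 := key c1
      have k2 := key c2
      have k3 := key c3
      simp only [Units.val_mul, c1, c2, c3] at k0 k1 k2 k3
      generalize (k : Matrix (Fin 2) (Fin 2) ℤ) = m at hd k0 k1 k2 k3 ⊢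
      clear key
      cases hx : x.t
      · rw [hx] at k0 k1 k2 k3
        simp [gm, col, Matrix.mul_apply, Fin.sum_univ_two, Matrix.one_apply] at k0 k3 ⊢
        have hs : m 0 0 * m 0 1 + m 1 0 * m 1 1 = 0 := by linarith
        have hp : (m 0 0 * m 0 0 + m 1 0 * m 1 0) * (m 0 1 * m 0 1 + m 1 1 * m 1 1) = 1 := by
          linear_combination hd + (m 0 0 * m 0 1 + m 1 0 * m 1 1) * hs
        rcases Int.mul_eq_one_iff_eq_one_or_neg_one.1 hp with ⟨h1, h2⟩ | ⟨h1, h2⟩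
        · fin_cases j
          · show m 0 0 * m 0 0 + m 1 0 * m 1 0 ≤ 2
            omega
          · show m 0 1 * m 0 1 + m 1 1 * m 1 1 ≤ 2
            omega
        · nlinarith [mul_self_nonneg (m 0 0), mul_self_nonneg (m 1 0)]
      · rw [hx] at k0 k1 k2 k3
        simp [gm, col, Matrix.mul_apply, Fin.sum_univ_two, Matrix.one_apply] at k0 k1 k2 ⊢
        obtain ⟨u1, v1, w1⟩ := three _ _ _ (neg_pos.2 k0) (neg_pos.2 k1) (neg_pos.2 k2)
          (by linear_combination 3 * hd)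
        fin_cases j
        · show 2 * (m 0 0 * m 0 0) - (m 0 0 * m 1 0 + m 1 0 * m 0 0) + 2 * (m 1 0 * m 1 0) ≤ 2
          linarith
        · show 2 * (m 0 1 * m 0 1) - (m 0 1 * m 1 1 + m 1 1 * m 0 1) + 2 * (m 1 1 * m 1 1) ≤ 2
          linarith
    exact gm_bd x.t _ 2 hb i)
  exact Set.Finite.of_finite_image hfin (fun a _ b _ h => by
    have h1 := mul_left_cancel h
    exact inv_injective (mul_right_cancel h1))

end Pool.Agent.TreeQ
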