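import Pool.Agent.Lib.MP_8f66f0_al_TreeQ.Fbase

/-! The Farey tree: the cuts are nested, the edges. -/

set_option autoImplicit false

namespace Pool.Agent.TreeQ

open Pool.Agent.TreeC Pointwise

private theorem fn_law (p p' : GZ) : ∃ A B S : ℤ, 4 * (A * B) = S ^ 2 - 1 ∧
    ∀ x : FV, qf x p' 0 1 = A * qf x p 0 0 + S * qf x p 0 1 + B * qf x p 1 1 := by
  refine ⟨en (p⁻¹ * p') 0 0 * en (p⁻¹ * p') 0 1, en (p⁻¹ * p') 1 0 * en (p⁻¹ * p') 1 1,
    en (p⁻¹ * p') 0 0 * en (p⁻¹ * p') 1 1 + en (p⁻¹ * p') 1 0 * en (p⁻¹ * p') 0 1, ?_, ?_⟩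
  · linear_combination (-1 : ℤ) * en_det (p⁻¹ * p')
  · intro x
    have h := qf_mul x p (p⁻¹ * p') 0 1
    rw [mul_inv_cancel_left] at h
    exact h

private theorem fn_sgn {A B S : ℤ} (h : 4 * (A * B) = S ^ 2 - 1) :
    S ≠ 0 ∧ (0 ≤ A ∧ 0 ≤ B ∨ A ≤ 0 ∧ B ≤ 0) := by
  have hS : S ≠ 0 := by
    rintro rfl
    omega
  refine ⟨hS, ?_⟩
  have h1 : 1 ≤ S ^ 2 := by
    have := sq_nonneg S
    have h2 : S ^ 2 ≠ 0 := pow_ne_zero 2 hS
    omega
  have h3 : 0 ≤ A * B := by omega
  rcases mul_nonneg_iff.1 h3 with h4 | h4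
  · exact Or.inl h4
  · exact Or.inr h4

theorem fnest : S_fnest := by
  intro p p'
  obtain ⟨A, B, S, hABS, hq⟩ := fn_law p p'
  obtain ⟨hS, hs⟩ := fn_sgn hABS
  by_cases hAB : 0 ≤ A ∧ 0 ≤ B
  · obtain ⟨hA, hB⟩ := hAB
    rcases lt_or_gt_of_ne hS with hS' | hS'
    · -- disjoint
      refine Or.inr (Or.inl fun x hx hx' => ?_)
      rw [mem_Fc] at hx hx'
      have h0 := qf_pos x p 0
      have h1 := qf_pos x p 1
      rw [hq] at hx'
      have h2 : 0 ≤ A * qf x p 0 0 := mul_nonneg hA h0.le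
      have h3 : 0 ≤ B * qf x p 1 1 := mul_nonneg hB h1.le
      have h4 : 0 < S * qf x p 0 1 := mul_pos_of_neg_of_neg hS' hx
      linarith
    · refine Or.inr (Or.inr (Or.inr fun x hx hx' => ?_))
      rw [Set.mem_compl_iff, mem_Fc, not_lt] at hx
      rw [mem_Fc] at hx'
      have h0 := qf_pos x p 0
      have h1 := qf_pos x p 1
      rw [hq] at hx'
      have h2 : 0 ≤ A * qf x p 0 0 := mul_nonneg hA h0.le
      have h3 : 0 ≤ B * qf x p 1 1 := mul_nonneg hB h1.le
      have h4 : 0 ≤ S * qf x p 0 1 := mul_nonneg hS'.le hx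
      linarith
  · have hs' : A ≤ 0 ∧ B ≤ 0 := hs.resolve_left hAB
    obtain ⟨hA, hB⟩ := hs'
    rcases lt_or_gt_of_ne hS with hS' | hS'
    · refine Or.inr (Or.inr (Or.inl fun x hx => ?_))
      rw [Set.mem_compl_iff, mem_Fc, not_lt] at hx
      rw [mem_Fc, hq]
      have h0 := qf_pos x p 0
      have h1 := qf_pos x p 1
      have h2 : A * qf x p 0 0 ≤ 0 := mul_nonpos_of_nonpos_of_nonneg hA h0.le
      have h3 : B * qf x p 1 1 ≤ 0 := mul_nonpos_of_nonpos_of_nonneg hB h1.le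
      have h4 : S * qf x p 0 1 ≤ 0 := mul_nonpos_of_nonpos_of_nonneg hS'.le hx
      have h5 : A < 0 ∨ B < 0 := by
        by_contra h
        push Not at h
        exact hAB h
      rcases h5 with h5 | h5
      · have : A * qf x p 0 0 < 0 := mul_neg_of_neg_of_pos h5 h0
        linarith
      · have : B * qf x p 1 1 < 0 := mul_neg_of_neg_of_pos h5 h1
        linarith
    · refine Or.inl fun x hx => ?_
      rw [mem_Fc] at hx ⊢
      rw [hq]
      have h0 := qf_pos x p 0
      have h1 := qf_pos x p 1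
      have h2 : A * qf x p 0 0 ≤ 0 := mul_nonpos_of_nonpos_of_nonneg hA h0.le
      have h3 : B * qf x p 1 1 ≤ 0 := mul_nonpos_of_nonpos_of_nonneg hB h1.le
      have h4 : S * qf x p 0 1 < 0 := mul_neg_of_pos_of_neg hS' hx
      linarith

/-- A cut is never the complement of a cut. -/
private theorem fn_not (p p' : GZ) (h1 : (⟨p, true⟩ : FV) ∉ Fc p') (h2 : (⟨p, false⟩ : FV) ∈ Fc p') :
    False := by
  obtain ⟨A, B, S, hABS, hq⟩ := fn_law p p'
  rw [mem_Fc, hq, (qf_true p).1, (qf_true p).2.1, (qf_true p).2.2] at h1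
  rw [mem_Fc, hq, (qf_false p).1, (qf_false p).2.1, (qf_false p).2.2] at h2
  have h3 : A + B ≤ -1 := by linarith
  have h4 : S ≤ 2 * (A + B) := by linarith
  have h5 : 4 * (A + B) ^ 2 ≤ S ^ 2 := by nlinarith
  have h6 : S ^ 2 - 1 ≤ (A + B) ^ 2 := by nlinarith [sq_nonneg (A - B)]
  nlinarith

theorem fadj : S_fadj := by
  intro p
  refine ⟨?_, ?_, ?_⟩
  · rw [mem_Fc, (qf_true p).2.1]
    norm_num
  · rw [mem_Fc, (qf_false p).2.1]
    norm_num
  · rintro k ⟨p', rfl | rfl⟩ h1 h2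
    · obtain ⟨A, B, S, hABS, hq⟩ := fn_law p p'
      rw [mem_Fc, hq, (qf_true p).1, (qf_true p).2.1, (qf_true p).2.2] at h1
      rw [mem_Fc, hq, (qf_false p).1, (qf_false p).2.1, (qf_false p).2.2] at h2
      have h3 : 0 ≤ A + B := by linarith
      have h4 : 2 * (A + B) < S := by linarith
      have h5 : 4 * (A + B) ^ 2 < S ^ 2 := by nlinarith
      have h6 : S ^ 2 - 1 ≤ (A + B) ^ 2 := by nlinarith [sq_nonneg (A - B)]
      have h7 : S < 2 := by nlinarith
      have h8 : S = 1 := by omega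
      have h9 : A + B = 0 := by omega
      rw [h8] at hABS
      have h10 : A * B = 0 := by omega
      have h11 : A = 0 := by
        rcases mul_eq_zero.1 h10 with h | h
        · exact h
        · omega
      have h12 : B = 0 := by omega
      ext x
      rw [mem_Fc, mem_Fc, hq, h8, h11, h12]
      simp
    · exfalso
      rw [Set.mem_compl_iff] at h1
      rw [Set.mem_compl_iff, not_not] at h2
      exact fn_not p p' h1 h2

private theorem fs_compl : ∀ h ∈ fcuts, hᶜ ∈ fcuts := by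
  rintro h ⟨p, rfl | rfl⟩
  · exact ⟨p, Or.inr rfl⟩
  · exact ⟨p, Or.inl (compl_compl _)⟩

private theorem fs_noinv (g p : GZ) : Fc (g * p) ≠ (Fc p)ᶜ := by
  intro h
  have h1 : (⟨p, true⟩ : FV) ∈ Fc p := by
    rw [mem_Fc, (qf_true p).2.1]
    norm_num
  have h2 : (⟨p, false⟩ : FV) ∉ Fc p := by
    rw [mem_Fc, (qf_false p).2.1]
    norm_num
  refine fn_not p (g * p) ?_ ?_
  · rw [h]
    exact fun h' => h' h1
  · rw [h]
    exact h2

theorem fsys (h1 : S_fnest) (h2 : S_ffin) (h3 : S_fadj) : S_fsys := by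
  refine ⟨fs_compl, ?_, ?_, ?_, ?_, ?_⟩
  · rintro g h ⟨p, rfl | rfl⟩
    · exact ⟨g * p, Or.inl (Fc_smul g p)⟩
    · refine ⟨g * p, Or.inr ?_⟩
      rw [Set.smul_set_compl, Fc_smul]
  · rintro h ⟨p, rfl | rfl⟩ k ⟨p', rfl | rfl⟩
    · exact h1 p p'
    · rcases h1 p p' with h | h | h | h
      · right; left
        rwa [compl_compl]
      · left
        exact h
      · right; right; right
        rwa [compl_compl]
      · right; right; left
        exact h
    · rcases h1 p p' with h | h | h | h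
      · right; right; left
        rwa [compl_compl]
      · right; right; right
        rwa [compl_compl]
      · left
        exact h
      · right; left
        exact h
    · rcases h1 p p' with h | h | h | h
      · right; right; right
        rwa [compl_compl, compl_compl]
      · right; right; left
        rwa [compl_compl]
      · right; left
        rwa [compl_compl]
      · left
        exact h
  · intro x y
    have hA : {h : Set FV | h ∈ fcuts ∧ x ∈ h ∧ y ∉ h} ⊆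
        (Fc '' {p : GZ | x ∈ Fc p ∧ y ∉ Fc p}) ∪
        ((fun p => (Fc p)ᶜ) '' {p : GZ | y ∈ Fc p ∧ x ∉ Fc p}) := by
      rintro h ⟨⟨p, rfl | rfl⟩, hx, hy⟩
      · exact Or.inl ⟨p, ⟨hx, hy⟩, rfl⟩
      · refine Or.inr ⟨p, ⟨?_, hx⟩, rfl⟩
        rwa [Set.mem_compl_iff, not_not] at hy
    exact (((h2 x y).image _).union ((h2 y x).image _)).subset hA
  · rintro g h ⟨p, rfl | rfl⟩ hg
    · rw [Fc_smul] at hg
      exact fs_noinv g p hg
    · rw [Set.smul_set_compl, Fc_smul, compl_inj_iff] at hg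
      exact fs_noinv g p hg
  · rintro h ⟨p, rfl | rfl⟩
    · exact ⟨_, _, h3 p⟩
    · obtain ⟨e1, e2, e3⟩ := h3 p
      refine ⟨⟨p, false⟩, ⟨p, true⟩, e2, fun h => h e1, fun k hk hx hy => ?_⟩
      have h4 := e3 kᶜ (fs_compl k hk) hy (fun h => h hx)
      rw [← h4, compl_compl]

end Pool.Agent.TreeQ
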