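import Mathlib
import Pool.Agent.Lib.MP_8f66f0_al_TreeQ.Spec
import Pool.Agent.Lib.MP_8f66f0_al_Tree.Comp
import Pool.Agent.Lib.MP_8f66f0_al_Tree.Basic

/-! Torsion free subgroups of `GL_2` over fields of rational functions: assembly. -/

set_option autoImplicit false

namespace Pool.Agent.TreeQ

open Pool.Agent.TreeC Pointwise

/-- torsion free -/
private def TF (G : Type) [Group G] : Prop := ∀ (g : G) (n : ℕ), 0 < n → g ^ n = 1 → g = 1

/-! ### Subgroups of `GL_2(ℤ)` -/

private theorem triv_of_finite (G : Type) [Group G] (hG : TF G) (hf : Finite G) :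
    Subsingleton G := by
  refine ⟨fun a b => ?_⟩
  have h1 : ∀ g : G, g = 1 := fun g =>
    hG g (orderOf g) (orderOf_pos g) (pow_orderOf_eq_one g)
  rw [h1 a, h1 b]

private theorem tf_sub {G : Type} [Group G] (hG : TF G) (H : Subgroup G) : TF H := by
  intro g n hn hg
  apply Subtype.ext
  exact hG g n hn (congrArg Subtype.val hg)

private theorem gz (h6 : S_fsys) (h7 : S_fstab) (P : (G : Type) → [Group G] → Prop) (hP : TCl P)
    (G : Type) [Group G] (σ : G →* GZ) (hσ : Function.Injective σ) (hG : TF G) : P G := by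
  let act : MulAction G FV := MulAction.compHom FV σ
  have hK : CutSys G FV fcuts := comp _ _ _ σ fcuts h6
  have : Nonempty FV := ⟨⟨1, true⟩⟩
  have key : ∀ x : FV, ∀ H : Subgroup G, H ≤ stV G hK x → P H := by
    intro x H hH
    have hfin : Finite H := by
      have : Finite {g : GZ | Eqv fcuts (g • x) x} := (h7 x).to_subtype
      refine Finite.of_injective (β := {g : GZ | Eqv fcuts (g • x) x})
        (fun g => ⟨σ (g : G), hH g.2⟩) ?_
      intro a b hab
      apply Subtype.ext
      apply hσ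
      exact congrArg Subtype.val hab
    have := triv_of_finite H (tf_sub hG H) hfin
    exact hP.triv H
  refine hP.tree G FV fcuts hK (fun x => key x _ le_rfl) ?_
  intro h hh
  obtain ⟨x, y, hxy⟩ := hK.exists_adj hh
  refine key x _ fun g hg => ?_
  exact ((mem_stE_iff hK hh hxy g).1 hg).1

/-! ### Groups with integral traces -/

private theorem map_inj {R S : Type} [CommRing R] [CommRing S] (j : R →+* S)
    (hj : Function.Injective j) :
    Function.Injective (Matrix.GeneralLinearGroup.map (n := Fin 2) j) := by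
  intro a b hab
  apply Units.ext
  ext i k
  apply hj
  have h1 := congrArg (fun M : Matrix.GeneralLinearGroup (Fin 2) S =>
    (M : Matrix (Fin 2) (Fin 2) S) i k) hab
  exact h1

private theorem map_val {R S : Type} [CommRing R] [CommRing S] (j : R →+* S)
    (a : Matrix.GeneralLinearGroup (Fin 2) R) :
    ((Matrix.GeneralLinearGroup.map j a : Matrix.GeneralLinearGroup (Fin 2) S) :
      Matrix (Fin 2) (Fin 2) S) = (a : Matrix (Fin 2) (Fin 2) R).map j := rfl

private theorem dd (h2 : S_line) (h3 : S_tri) (h4 : S_inj) (h5 : S_lat) (h6 : S_fsys)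
    (h7 : S_fstab) (P : (G : Type) → [Group G] → Prop) (hP : TCl P) (σ R : Type) [CommRing R]
    (j : R →+* FractionRing (MvPolynomial σ ℤ)) (hj : Function.Injective j) (φ : R →+* ℚ)
    (D : Type) [Group D] (hD : TF D) (ρ : D →* Matrix.GeneralLinearGroup (Fin 2) R)
    (hρ : Function.Injective ρ)
    (htr : ∀ g : D, ∃ z : ℤ, Matrix.trace (ρ g : Matrix (Fin 2) (Fin 2) R) = (z : R))
    (hdet : ∀ g : D, Matrix.det (ρ g : Matrix (Fin 2) (Fin 2) R) = 1 ∨
      Matrix.det (ρ g : Matrix (Fin 2) (Fin 2) R) = -1) : P D := by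
  have : IsDomain R := hj.isDomain j
  by_cases hirr : ∃ g h : D, Matrix.det ((ρ g : Matrix (Fin 2) (Fin 2) R) *
      (ρ h : Matrix (Fin 2) (Fin 2) R) -
      (ρ h : Matrix (Fin 2) (Fin 2) R) * (ρ g : Matrix (Fin 2) (Fin 2) R)) ≠ 0
  · obtain ⟨ρ', hρ', htr', hirr'⟩ := h4 R D φ ρ hρ htr hdet hirr
    obtain ⟨τ, hτ⟩ := h5 D ρ' hρ' htr' hirr'
    exact gz h6 h7 P hP D τ hτ hD
  · push Not at hirr
    obtain ⟨L, hL, ρ', hρ', htri⟩ := h2 (FractionRing (MvPolynomial σ ℤ)) D
      ((Matrix.GeneralLinearGroup.map j).comp ρ) ((map_inj j hj).comp hρ) (by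
        intro g h
        have e1 : (((Matrix.GeneralLinearGroup.map j).comp ρ) g :
            Matrix (Fin 2) (Fin 2) (FractionRing (MvPolynomial σ ℤ))) =
            (ρ g : Matrix (Fin 2) (Fin 2) R).map j := rfl
        have e2 : (((Matrix.GeneralLinearGroup.map j).comp ρ) h :
            Matrix (Fin 2) (Fin 2) (FractionRing (MvPolynomial σ ℤ))) =
            (ρ h : Matrix (Fin 2) (Fin 2) R).map j := rfl
        rw [e1, e2]
        have e3 := RingHom.map_det j ((ρ g : Matrix (Fin 2) (Fin 2) R) *
          (ρ h : Matrix (Fin 2) (Fin 2) R) -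
          (ρ h : Matrix (Fin 2) (Fin 2) R) * (ρ g : Matrix (Fin 2) (Fin 2) R))
        rw [hirr g h, map_zero] at e3
        rw [RingHom.map_sub, RingHom.map_mul, RingHom.map_mul] at e3
        exact e3.symm)
    exact h3 P hP L D ρ' hρ' hD htri

/-! ### Valuations -/

private theorem valQ (h8 : S_ufd) (h9 : S_vinfZ) (h10 : S_loc) (σ R : Type) [CommRing R]
    (j : R →+* FractionRing (MvPolynomial σ ℤ)) (hj : Function.Injective j)
    (hft : Algebra.FiniteType ℤ R) :
    ∃ (n : ℕ) (w : Fin n → EVal (FractionRing (MvPolynomial σ ℤ))),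
      ∀ a : R, (∀ i, 0 ≤ (w i).w (j a)) → ∃ z : ℤ, a = (z : R) := by
  obtain ⟨_, f, hf, hloc⟩ := h10 σ R j hj hft
  obtain ⟨n, w, hw⟩ := h8 (MvPolynomial σ ℤ) f hf
  obtain ⟨w0, hw0⟩ := h9 σ
  refine ⟨n + 1, Fin.cons w0 w, fun a ha => ?_⟩
  obtain ⟨k, b, hkb⟩ := hloc a
  obtain ⟨c, hc⟩ := hw (j a) k b hkb fun i => by
    have := ha i.succ
    rwa [Fin.cons_succ] at this
  have h0 := ha 0
  rw [Fin.cons_zero, hc] at h0
  obtain ⟨z, hz⟩ := hw0 c h0
  refine ⟨z, hj ?_⟩
  rw [hc, hz, map_intCast]
  have h1 : (MvPolynomial.C z : MvPolynomial σ ℤ) = ((z : ℤ) : MvPolynomial σ ℤ) := by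
    simp
  rw [h1, map_intCast]

private theorem eval_one {F : Type} [Field F] (w : EVal F) : w.w 1 = 0 := by
  have h1 : w.w 1 ≠ ⊤ := fun h => one_ne_zero ((w.top_iff 1).1 h)
  have h2 := w.mul 1 1
  rw [mul_one] at h2
  obtain ⟨n, hn⟩ := WithTop.ne_top_iff_exists.1 h1
  rw [← hn] at h2 ⊢
  have h3 : n = n + n := by exact_mod_cast h2
  have h4 : n = 0 := by omega
  rw [h4]
  rfl

private theorem nonneg_of_add {x : WithTop ℤ} (h : 0 ≤ x + x) : 0 ≤ x := by
  induction x using WithTop.recTopCoe with
  | top => exact le_top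
  | coe n =>
    have h1 : (0 : ℤ) ≤ n + n := by exact_mod_cast h
    have h2 : (0 : ℤ) ≤ n := by omega
    exact_mod_cast h2

private theorem unit_ne {F : Type} [Field F] (w : EVal F) (u : Fˣ) : w.w (u : F) ≠ ⊤ :=
  fun h => u.ne_zero ((w.top_iff _).1 h)

/-- A valuation as a homomorphism from the units. -/
private noncomputable def evh {F : Type} [Field F] (w : EVal F) : Fˣ →* Multiplicative ℤ where
  toFun u := Multiplicative.ofAdd ((w.w (u : F)).untop (unit_ne w u))
  map_one' := by
    have h1 : w.w ((1 : Fˣ) : F) = 0 := by rw [Units.val_one, eval_one]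
    have h2 : (w.w ((1 : Fˣ) : F)).untop (unit_ne w 1) = 0 := by
      rw [WithTop.untop_eq_iff]
      exact h1
    rw [h2]
    rfl
  map_mul' u v := by
    rw [← ofAdd_add]
    congr 1
    rw [WithTop.untop_eq_iff, WithTop.coe_add, WithTop.coe_untop, WithTop.coe_untop, Units.val_mul,
      w.mul]

private theorem evh_ker {F : Type} [Field F] (w : EVal F) (u : Fˣ) (h : evh w u = 1) :
    w.w (u : F) = 0 := by
  have h1 : (w.w (u : F)).untop (unit_ne w u) = 0 := h
  rw [WithTop.untop_eq_iff] at h1
  exact h1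

/-! ### The main step -/

private theorem core (h1 : S_zab) (h2 : S_line) (h3 : S_tri) (h4 : S_inj) (h5 : S_lat)
    (h6 : S_fsys) (h7 : S_fstab) (h8 : S_ufd) (h9 : S_vinfZ) (h10 : S_loc) (hd : S_descP)
    (P : (G : Type) → [Group G] → Prop) (hP : TCl P) (σ R : Type) [CommRing R]
    (j : R →+* FractionRing (MvPolynomial σ ℤ)) (hj : Function.Injective j)
    (hft : Algebra.FiniteType ℤ R) (G : Type) [Group G] (hG : TF G)
    (ρ : G →* Matrix.GeneralLinearGroup (Fin 2) R) (hρ : Function.Injective ρ) : P G := by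
  classical
  obtain ⟨⟨φ⟩, _⟩ := h10 σ R j hj hft
  obtain ⟨n, w, hw⟩ := valQ h8 h9 h10 σ R j hj hft
  have hj0 : ∀ z : ℤ, (z : R) = 0 → z = 0 := by
    intro z hz
    have e1 := congrArg φ hz
    rw [map_intCast, map_zero] at e1
    exact_mod_cast e1
  let ρF : G →* Matrix.GeneralLinearGroup (Fin 2) (FractionRing (MvPolynomial σ ℤ)) :=
    (Matrix.GeneralLinearGroup.map j).comp ρ
  have edet : ∀ g : G, Matrix.det (ρF g : Matrix (Fin 2) (Fin 2)
      (FractionRing (MvPolynomial σ ℤ))) = j (Matrix.det (ρ g : Matrix (Fin 2) (Fin 2) R)) := by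
    intro g
    exact (RingHom.map_det j (ρ g : Matrix (Fin 2) (Fin 2) R)).symm
  have etr : ∀ g : G, Matrix.trace (ρF g : Matrix (Fin 2) (Fin 2)
      (FractionRing (MvPolynomial σ ℤ))) = j (Matrix.trace (ρ g : Matrix (Fin 2) (Fin 2) R)) := by
    intro g
    have e0 : (ρF g : Matrix (Fin 2) (Fin 2) (FractionRing (MvPolynomial σ ℤ))) =
      (ρ g : Matrix (Fin 2) (Fin 2) R).map j := rfl
    rw [e0]
    simp [Matrix.trace]
  refine hd P hP G n (fun _ => FractionRing (MvPolynomial σ ℤ)) (fun _ => ρF) w ?_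
  intro Δ hΔ
  let f : Δ →* (Fin n → Multiplicative ℤ) :=
    { toFun := fun g i => evh (w i) (Matrix.GeneralLinearGroup.det (ρF (g : G)))
      map_one' := by
        funext i
        simp
      map_mul' := by
        intro a b
        funext i
        simp }
  refine h1 P hP Δ (Fin n → Multiplicative ℤ) f ?_ ?_
  · intro a m hm ha
    funext i
    have e1 : (a i) ^ m = 1 := congrFun ha i
    have e2 : (m : ℤ) * (Multiplicative.toAdd (a i)) = 0 := by
      have := congrArg Multiplicative.toAdd e1
      rw [toAdd_pow, toAdd_one, nsmul_eq_mul] at this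
      exact this
    have e3 : Multiplicative.toAdd (a i) = 0 := by
      rcases mul_eq_zero.1 e2 with h | h
      · omega
      · exact h
    exact e3
  · have hval : ∀ (g : f.ker) (i : Fin n), (w i).w (j (Matrix.det
        (ρ ((g : Δ) : G) : Matrix (Fin 2) (Fin 2) R))) = 0 := by
      intro g i
      have e1 : f (g : Δ) = 1 := g.2
      have e2 := evh_ker (w i) _ (congrFun e1 i)
      rw [← edet]
      exact e2
    refine dd h2 h3 h4 h5 h6 h7 P hP σ R j hj φ f.ker (tf_sub (tf_sub hG Δ) f.ker)
      (ρ.comp (Δ.subtype.comp f.ker.subtype))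
      (hρ.comp (Δ.subtype_injective.comp f.ker.subtype_injective)) ?_ ?_
    · intro g
      apply hw
      intro i
      have e1 := hΔ _ (g : Δ).2 i
      rw [edet, etr] at e1
      rw [hval g i] at e1
      exact nonneg_of_add e1
    · intro g
      obtain ⟨z, hz⟩ := hw (Matrix.det (ρ ((g : Δ) : G) : Matrix (Fin 2) (Fin 2) R)) fun i => by
        rw [hval g i]
      obtain ⟨z', hz'⟩ := hw (Matrix.det (ρ (((g⁻¹ : f.ker) : Δ) : G) :
        Matrix (Fin 2) (Fin 2) R)) fun i => by
          rw [hval g⁻¹ i]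
      have e1 : (z : R) * (z' : R) = 1 := by
        rw [← hz, ← hz', ← Matrix.det_mul, ← Units.val_mul, ← map_mul]
        have e2 : (((g : Δ) : G) * ((((g⁻¹ : f.ker) : Δ) : G))) = 1 := by
          change (((g * g⁻¹ : f.ker) : Δ) : G) = 1
          rw [mul_inv_cancel]
          rfl
        rw [e2, map_one, Units.val_one, Matrix.det_one]
      have e3 : z * z' = 1 := by
        have e4 : ((z * z' - 1 : ℤ) : R) = 0 := by
          push_cast
          rw [e1, sub_self]
        have := hj0 _ e4
        omega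
      have e5 : z = 1 ∨ z = -1 := Int.eq_one_or_neg_one_of_mul_eq_one e3
      change Matrix.det (ρ ((g : Δ) : G) : Matrix (Fin 2) (Fin 2) R) = 1 ∨
        Matrix.det (ρ ((g : Δ) : G) : Matrix (Fin 2) (Fin 2) R) = -1
      rw [hz]
      rcases e5 with rfl | rfl
      · left; simp
      · right; simp

theorem glQ (h1 : S_zab) (h2 : S_line) (h3 : S_tri) (h4 : S_inj) (h5 : S_lat)
    (h6 : S_fsys) (h7 : S_fstab) (h8 : S_ufd) (h9 : S_vinfZ) (h10 : S_loc) (hd : S_descP) :
    S_glQ := by
  classical
  intro P hP σ R _ j hj Γ hΓ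
  refine hP.directed Γ {K | K.FG} ⟨⊥, Subgroup.FG.bot⟩ ?_ ?_ ?_
  · intro K hK K' hK'
    exact ⟨K ⊔ K', Subgroup.FG.sup hK hK', le_sup_left, le_sup_right⟩
  · intro g
    exact ⟨Subgroup.closure {g}, ⟨{g}, by simp⟩, Subgroup.subset_closure rfl⟩
  · intro K hK
    -- the ring generated by the entries
    have hfg : Group.FG K := (Group.fg_iff_subgroup_fg K).2 hK
    let ι : K →* Matrix.GeneralLinearGroup (Fin 2) R := Γ.subtype.comp K.subtype
    have hι : Function.Injective ι := Γ.subtype_injective.comp K.subtype_injective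
    obtain ⟨S, hS⟩ := Group.fg_def.1 hfg
    let T : Finset R := S.biUnion fun s => (Finset.univ : Finset (Fin 2 × Fin 2)).biUnion fun q =>
      {(ι s : Matrix (Fin 2) (Fin 2) R) q.1 q.2, (ι s⁻¹ : Matrix (Fin 2) (Fin 2) R) q.1 q.2}
    let R0 : Subalgebra ℤ R := Algebra.adjoin ℤ (T : Set R)
    have hmem : ∀ g : K, ∀ i k, (ι g : Matrix (Fin 2) (Fin 2) R) i k ∈ R0 ∧
        (ι g⁻¹ : Matrix (Fin 2) (Fin 2) R) i k ∈ R0 := by
      intro g
      have hg : g ∈ Subgroup.closure (S : Set K) := by
        rw [hS]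
        exact Subgroup.mem_top g
      induction hg using Subgroup.closure_induction with
      | mem x hx =>
        intro i k
        constructor
        · apply Algebra.subset_adjoin
          simp only [T, Finset.coe_biUnion, Set.mem_iUnion]
          exact ⟨x, hx, (i, k), by simp, by simp⟩
        · apply Algebra.subset_adjoin
          simp only [T, Finset.coe_biUnion, Set.mem_iUnion]
          exact ⟨x, hx, (i, k), by simp, by simp⟩
      | one =>
        intro i k
        rw [inv_one, map_one]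
        have h1 : ((1 : Matrix.GeneralLinearGroup (Fin 2) R) : Matrix (Fin 2) (Fin 2) R) i k ∈
            R0 := by
          rw [Units.val_one, Matrix.one_apply]
          split_ifs
          · exact R0.one_mem
          · exact R0.zero_mem
        exact ⟨h1, h1⟩
      | mul x y _ _ hx hy =>
        intro i k
        rw [mul_inv_rev, map_mul, map_mul, Units.val_mul, Units.val_mul, Matrix.mul_apply,
          Matrix.mul_apply]
        exact ⟨R0.sum_mem fun l _ => R0.mul_mem (hx i l).1 (hy l k).1,
          R0.sum_mem fun l _ => R0.mul_mem (hy i l).2 (hx l k).2⟩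
      | inv x _ hx =>
        intro i k
        rw [inv_inv]
        exact ⟨(hx i k).2, (hx i k).1⟩
    let J : K →* Matrix (Fin 2) (Fin 2) R0 :=
      { toFun := fun g => Matrix.of fun i k =>
          ⟨(ι g : Matrix (Fin 2) (Fin 2) R) i k, (hmem g i k).1⟩
        map_one' := by
          ext i k
          change (ι 1 : Matrix (Fin 2) (Fin 2) R) i k =
            (((1 : Matrix (Fin 2) (Fin 2) R0) i k : R0) : R)
          rw [map_one, Units.val_one, Matrix.one_apply, Matrix.one_apply]
          split_ifs <;> rfl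
        map_mul' := by
          intro x y
          ext i k
          have e1 : (ι (x * y) : Matrix (Fin 2) (Fin 2) R) i k =
              ∑ l, (ι x : Matrix (Fin 2) (Fin 2) R) i l *
                (ι y : Matrix (Fin 2) (Fin 2) R) l k := by
            rw [map_mul, Units.val_mul, Matrix.mul_apply]
          refine e1.trans ?_
          rw [Matrix.mul_apply, AddSubmonoidClass.coe_finsetSum]
          rfl }
    let u : K →* Matrix.GeneralLinearGroup (Fin 2) R0 := J.toHomUnits
    have hu : Function.Injective u := by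
      intro a b hab
      apply hι
      apply Units.ext
      ext i k
      have h1 := congrArg (fun M : Matrix.GeneralLinearGroup (Fin 2) R0 =>
        (((M : Matrix (Fin 2) (Fin 2) R0) i k : R0) : R)) hab
      exact h1
    have hft : Algebra.FiniteType ℤ R0 := by
      rw [← Subalgebra.fg_iff_finiteType]
      exact Subalgebra.fg_adjoin_finset T
    refine core h1 h2 h3 h4 h5 h6 h7 h8 h9 h10 hd P hP σ R0 (j.comp R0.val.toRingHom)
      (hj.comp Subtype.val_injective) hft K ?_ u hu
    intro g n hn hg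
    apply Subtype.ext
    apply Subtype.ext
    apply hΓ _ (g : Γ).2 n hn
    have h1 := congrArg (fun x : K => ((x : Γ) : Matrix.GeneralLinearGroup (Fin 2) R)) hg
    exact h1

end Pool.Agent.TreeQ
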