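import Mathlib
import Pool.Agent.Lib.MP_8f66f0_al_TreeQ.Spec

/-! A homomorphism to `ℚ` is injective on an irreducible group with integral traces. -/

set_option autoImplicit false

namespace Pool.Agent.TreeQ

/-- the determinant of the commutator is a polynomial in traces and determinants -/
private theorem det_comm {R : Type} [CommRing R] (A B : Matrix (Fin 2) (Fin 2) R) :
    Matrix.det (A * B - B * A) = 4 * (A.det * B.det) + A.trace * B.trace * (A * B).trace -
      A.trace ^ 2 * B.det - B.trace ^ 2 * A.det - (A * B).trace ^ 2 := by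
  simp only [Matrix.det_fin_two, Matrix.trace_fin_two, Matrix.sub_apply, Matrix.mul_apply,
    Fin.sum_univ_two]
  ring

private def big {R : Type} [CommRing R] (A B : Matrix (Fin 2) (Fin 2) R) :
    Matrix (Fin 4) (Fin 4) R :=
  !![1, 0, 0, 1; A 0 0, A 1 0, A 0 1, A 1 1; B 0 0, B 1 0, B 0 1, B 1 1;
    (A * B) 0 0, (A * B) 1 0, (A * B) 0 1, (A * B) 1 1]

private theorem big_det {R : Type} [CommRing R] (A B : Matrix (Fin 2) (Fin 2) R) :
    (big A B).det = -Matrix.det (A * B - B * A) := by
  unfold big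
  simp only [Matrix.det_fin_two, Matrix.sub_apply, Matrix.mul_apply, Fin.sum_univ_two]
  rw [Matrix.det_succ_row_zero]
  simp [Fin.sum_univ_succ, Matrix.det_fin_three, Fin.succAbove]
  ring

/-- a matrix which is orthogonal to `1, A, B, A B` is zero -/
private theorem eq_zero_of_tr {R : Type} [CommRing R] [IsDomain R]
    (A B E : Matrix (Fin 2) (Fin 2) R) (h : Matrix.det (A * B - B * A) ≠ 0)
    (h0 : E.trace = 0) (h1 : (E * A).trace = 0) (h2 : (E * B).trace = 0)
    (h3 : (E * (A * B)).trace = 0) : E = 0 := by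
  have hd : (big A B).det ≠ 0 := by
    rw [big_det]
    exact neg_ne_zero.2 h
  have hv : (big A B).mulVec ![E 0 0, E 0 1, E 1 0, E 1 1] = 0 := by
    rw [Matrix.trace_fin_two] at h0 h1 h2 h3
    rw [Matrix.mul_apply, Matrix.mul_apply, Fin.sum_univ_two, Fin.sum_univ_two] at h1 h2 h3
    funext i
    fin_cases i
    · simpa [big, Matrix.mulVec, dotProduct, Fin.sum_univ_succ] using h0
    · simp [big, Matrix.mulVec, dotProduct, Fin.sum_univ_succ]
      linear_combination h1
    · simp [big, Matrix.mulVec, dotProduct, Fin.sum_univ_succ]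
      linear_combination h2
    · simp [big, Matrix.mulVec, dotProduct, Fin.sum_univ_succ, Matrix.mul_apply]
      simp only [Matrix.mul_apply, Fin.sum_univ_two] at h3
      linear_combination h3
  have hz := Matrix.eq_zero_of_mulVec_eq_zero hd hv
  ext i j
  fin_cases i <;> fin_cases j
  · exact congrFun hz 0
  · exact congrFun hz 1
  · exact congrFun hz 2
  · exact congrFun hz 3

theorem inj : S_inj := by
  intro R G _ _ _ φ ρ hρ htr hdet ⟨g, h, hgh⟩
  have hcast : ∀ a b : ℤ, φ (a : R) = φ (b : R) → (a : R) = (b : R) := by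
    intro a b hab
    rw [map_intCast, map_intCast] at hab
    exact congrArg _ (Int.cast_injective hab)
  have hval : ∀ g : G, (((Matrix.GeneralLinearGroup.map φ).comp ρ) g :
      Matrix (Fin 2) (Fin 2) ℚ) = (ρ g : Matrix (Fin 2) (Fin 2) R).map φ := fun g => rfl
  have htr' : ∀ M : Matrix (Fin 2) (Fin 2) R, (M.map φ).trace = φ M.trace := by
    intro M
    rw [Matrix.trace_fin_two, Matrix.trace_fin_two, map_add]
    rfl
  have hdet' : ∀ M : Matrix (Fin 2) (Fin 2) R, (M.map φ).det = φ M.det := by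
    intro M
    rw [Matrix.det_fin_two, Matrix.det_fin_two, map_sub, map_mul, map_mul]
    rfl
  have hmap : ∀ M N : Matrix (Fin 2) (Fin 2) R, M.map φ * N.map φ - N.map φ * M.map φ =
      (M * N - N * M).map φ := by
    intro M N
    rw [← Matrix.map_mul, ← Matrix.map_mul, Matrix.map_sub]
    exact map_sub φ
  have hd : ∀ g : G, ∃ z : ℤ, Matrix.det (ρ g : Matrix (Fin 2) (Fin 2) R) = (z : R) := by
    intro g
    rcases hdet g with h1 | h1
    · exact ⟨1, by rw [h1]; norm_num⟩
    · exact ⟨-1, by rw [h1]; norm_num⟩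
  have hD : ∃ z : ℤ, Matrix.det ((ρ g : Matrix (Fin 2) (Fin 2) R) * (ρ h : Matrix (Fin 2) (Fin 2) R) -
      (ρ h : Matrix (Fin 2) (Fin 2) R) * (ρ g : Matrix (Fin 2) (Fin 2) R)) = (z : R) := by
    obtain ⟨a, ha⟩ := htr g
    obtain ⟨b, hb⟩ := htr h
    obtain ⟨c, hc⟩ := htr (g * h)
    obtain ⟨d, hd1⟩ := hd g
    obtain ⟨e, he⟩ := hd h
    rw [map_mul, Units.val_mul] at hc
    refine ⟨4 * (d * e) + a * b * c - a ^ 2 * e - b ^ 2 * d - c ^ 2, ?_⟩
    rw [det_comm, ha, hb, hc, hd1, he]
    push_cast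
    ring
  refine ⟨(Matrix.GeneralLinearGroup.map φ).comp ρ, ?_, ?_, g, h, ?_⟩
  · rw [injective_iff_map_eq_one]
    intro c hc
    have hc1 : (ρ c : Matrix (Fin 2) (Fin 2) R).map φ = 1 := by
      rw [← hval, hc]
      rfl
    have key : ∀ b : G, (((ρ c : Matrix (Fin 2) (Fin 2) R) - 1) *
        (ρ b : Matrix (Fin 2) (Fin 2) R)).trace = 0 := by
      intro b
      rw [sub_mul, one_mul, Matrix.trace_sub, sub_eq_zero, ← Units.val_mul, ← map_mul]
      obtain ⟨z, hz⟩ := htr (c * b)
      obtain ⟨w, hw⟩ := htr b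
      rw [hz, hw]
      apply hcast
      rw [← hz, ← hw, ← htr', ← htr', map_mul, Units.val_mul, Matrix.map_mul, hc1, one_mul]
    have hE := eq_zero_of_tr (ρ g : Matrix (Fin 2) (Fin 2) R) (ρ h : Matrix (Fin 2) (Fin 2) R)
      ((ρ c : Matrix (Fin 2) (Fin 2) R) - 1) hgh (by
        have := key 1
        rwa [map_one, Units.val_one, mul_one] at this) (key g) (key h) (by
        have := key (g * h)
        rwa [map_mul, Units.val_mul] at this)
    apply hρ
    rw [map_one]
    exact Units.ext (sub_eq_zero.1 hE)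
  · intro g
    obtain ⟨z, hz⟩ := htr g
    exact ⟨z, by rw [hval, htr', hz, map_intCast]⟩
  · rw [hval, hval, hmap, hdet']
    obtain ⟨z, hz⟩ := hD
    rw [hz] at hgh ⊢
    rw [map_intCast]
    intro h0
    apply hgh
    rw [Int.cast_eq_zero.1 h0, Int.cast_zero]

end Pool.Agent.TreeQ
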