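import Pool.Agent.Lib.MP_8f66f0_al_TreeQ.Spec

/-! TreeQ, module Lat (helper32): an irreducible subgroup of `GL_2(ℚ)` with integral traces
preserves a lattice. -/

set_option autoImplicit false

namespace Pool.Agent.TreeQ

open Matrix

/-- Cramer's rule for the four trace forms -/
private theorem lat_cramer (a b c d e f g h x y z w : ℚ)
    (h1 : x + w = 0) (h2 : x * a + y * c + (z * b + w * d) = 0)
    (h3 : x * e + y * g + (z * f + w * h) = 0)
    (h4 : x * (a * e + b * g) + y * (c * e + d * g) + (z * (a * f + b * h) + w * (c * f + d * h)) = 0)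
    (hD : (a * e + b * g - (e * a + f * c)) * (c * f + d * h - (g * b + h * d)) -
      (a * f + b * h - (e * b + f * d)) * (c * e + d * g - (g * a + h * c)) ≠ 0) :
    x = 0 ∧ y = 0 ∧ z = 0 ∧ w = 0 := by
  have hw : w = -x := by linarith
  subst hw
  have k2 : x * (a - d) + y * c + z * b = 0 := by linear_combination h2
  have k3 : x * (e - h) + y * g + z * f = 0 := by linear_combination h3
  have k4 : x * ((a * e + b * g) - (c * f + d * h)) + y * (c * e + d * g) + z * (a * f + b * h) = 0 := by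
    linear_combination h4
  set p : ℚ := (a * e + b * g) - (c * f + d * h) with hp
  set q : ℚ := c * e + d * g with hq
  set r : ℚ := a * f + b * h with hr
  have hDel : (a - d) * (g * r - f * q) - c * ((e - h) * r - f * p) + b * ((e - h) * q - g * p) ≠ 0 := by
    intro h0
    apply hD
    rw [hp, hq, hr] at h0
    linear_combination h0
  have kx : ((a - d) * (g * r - f * q) - c * ((e - h) * r - f * p) + b * ((e - h) * q - g * p)) * x = 0 := by
    linear_combination (g * r - f * q) * k2 - (c * r - b * q) * k3 + (c * f - b * g) * k4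
  have ky : ((a - d) * (g * r - f * q) - c * ((e - h) * r - f * p) + b * ((e - h) * q - g * p)) * y = 0 := by
    linear_combination -((e - h) * r - f * p) * k2 + ((a - d) * r - b * p) * k3 -
      ((a - d) * f - b * (e - h)) * k4
  have kz : ((a - d) * (g * r - f * q) - c * ((e - h) * r - f * p) + b * ((e - h) * q - g * p)) * z = 0 := by
    linear_combination ((e - h) * q - g * p) * k2 - ((a - d) * q - c * p) * k3 +
      ((a - d) * g - c * (e - h)) * k4
  have x0 : x = 0 := (mul_eq_zero.1 kx).resolve_left hDel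
  have y0 : y = 0 := (mul_eq_zero.1 ky).resolve_left hDel
  have z0 : z = 0 := (mul_eq_zero.1 kz).resolve_left hDel
  exact ⟨x0, y0, z0, by rw [x0, neg_zero]⟩

/-- the four trace forms separate the matrices -/
private theorem lat_inj (A B X : Matrix (Fin 2) (Fin 2) ℚ) (hD : (A * B - B * A).det ≠ 0)
    (h1 : X.trace = 0) (h2 : (X * A).trace = 0) (h3 : (X * B).trace = 0)
    (h4 : (X * (A * B)).trace = 0) : X = 0 := by
  rw [Matrix.trace_fin_two] at h1 h2 h3 h4
  simp only [Matrix.mul_apply, Fin.sum_univ_two] at h2 h3 h4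
  rw [Matrix.det_fin_two] at hD
  simp only [Matrix.sub_apply, Matrix.mul_apply, Fin.sum_univ_two] at hD
  obtain ⟨x0, y0, z0, w0⟩ := lat_cramer (A 0 0) (A 0 1) (A 1 0) (A 1 1) (B 0 0) (B 0 1) (B 1 0)
    (B 1 1) (X 0 0) (X 0 1) (X 1 0) (X 1 1) h1 h2 h3 h4 hD
  ext i j
  fin_cases i <;> fin_cases j
  · exact x0
  · exact y0
  · exact z0
  · exact w0

/-- a sublattice of `ℚ ^ 2` which contains the standard basis has rank two -/
private theorem lat_rank (L : Submodule ℤ (Fin 2 → ℚ)) [Module.Finite ℤ L]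
    (h : ∀ i : Fin 2, (Pi.single i 1 : Fin 2 → ℚ) ∈ L) : Module.finrank ℤ L = 2 := by
  apply le_antisymm
  · have b := Module.finBasis ℤ L
    have hb : LinearIndependent ℤ (fun i => (b i : Fin 2 → ℚ)) :=
      b.linearIndependent.map' L.subtype (Submodule.ker_subtype L)
    have hb2 : LinearIndependent ℚ (fun i => (b i : Fin 2 → ℚ)) :=
      (LinearIndependent.iff_fractionRing ℤ ℚ).1 hb
    have h3 := hb2.fintype_card_le_finrank
    simpa using h3
  · have e1 : LinearIndependent ℚ (fun i : Fin 2 => (Pi.single i 1 : Fin 2 → ℚ)) := by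
      have h4 := (Pi.basisFun ℚ (Fin 2)).linearIndependent
      have h6 : (⇑(Pi.basisFun ℚ (Fin 2)) : Fin 2 → Fin 2 → ℚ) =
          fun i : Fin 2 => (Pi.single i 1 : Fin 2 → ℚ) := by
        funext i
        exact Pi.basisFun_apply ℚ (Fin 2) i
      rwa [h6] at h4
    have e2 : LinearIndependent ℤ (fun i : Fin 2 => (Pi.single i 1 : Fin 2 → ℚ)) :=
      (LinearIndependent.iff_fractionRing ℤ ℚ).2 e1
    have e3 : LinearIndependent ℤ (fun i : Fin 2 => (⟨Pi.single i 1, h i⟩ : L)) :=
      LinearIndependent.of_comp L.subtype e2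
    have h5 := e3.fintype_card_le_finrank
    simpa using h5

theorem lat : S_lat := by
  intro G _ ρ hρ htr hirr
  obtain ⟨g, h, hD⟩ := hirr
  set A : Matrix (Fin 2) (Fin 2) ℚ := (ρ g : Matrix (Fin 2) (Fin 2) ℚ) with hA
  set B : Matrix (Fin 2) (Fin 2) ℚ := (ρ h : Matrix (Fin 2) (Fin 2) ℚ) with hB
  -- the four traces
  let T : Matrix (Fin 2) (Fin 2) ℚ →ₗ[ℤ] (Fin 4 → ℚ) :=
    AddMonoidHom.toIntLinearMap
      { toFun := fun X => ![X.trace, (X * A).trace, (X * B).trace, (X * (A * B)).trace]
        map_zero' := by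
          ext i
          fin_cases i <;> simp
        map_add' := fun X Y => by
          ext i
          fin_cases i <;> simp [add_mul, Matrix.trace_add] }
  have hT : ∀ X, T X = ![X.trace, (X * A).trace, (X * B).trace, (X * (A * B)).trace] := fun X => rfl
  let c4 : (Fin 4 → ℤ) →ₗ[ℤ] (Fin 4 → ℚ) :=
    AddMonoidHom.toIntLinearMap ((Int.castAddHom ℚ).compLeft (Fin 4))
  have hc4 : ∀ v i, c4 v i = (v i : ℚ) := fun v i => rfl
  let Λ : Submodule ℤ (Matrix (Fin 2) (Fin 2) ℚ) := (LinearMap.range c4).comap T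
  have n1 : IsNoetherian ℤ (LinearMap.range c4) :=
    isNoetherian_of_surjective c4.rangeRestrict c4.range_rangeRestrict
  have n2 : IsNoetherian ℤ Λ := by
    refine isNoetherian_of_injective
      ((T.domRestrict Λ).codRestrict (LinearMap.range c4) (fun X => X.2)) ?_
    intro X Y hXY
    have h1 : T X = T Y := congrArg Subtype.val hXY
    have h2 : T ((X : Matrix (Fin 2) (Fin 2) ℚ) - Y) = 0 := by rw [map_sub, h1, sub_self]
    rw [hT] at h2
    have h3 := lat_inj A B _ hD (congrFun h2 0) (congrFun h2 1) (congrFun h2 2) (congrFun h2 3)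
    exact Subtype.ext (sub_eq_zero.1 h3)
  -- the columns
  let ev : Fin 2 → (Matrix (Fin 2) (Fin 2) ℚ →ₗ[ℤ] (Fin 2 → ℚ)) := fun i =>
    AddMonoidHom.toIntLinearMap
      { toFun := fun X => fun j => X j i
        map_zero' := rfl
        map_add' := fun X Y => rfl }
  have hev : ∀ i X j, ev i X j = X j i := fun i X j => rfl
  have hΛ : ∀ e : G, (ρ e : Matrix (Fin 2) (Fin 2) ℚ) ∈ Λ := by
    intro e
    obtain ⟨z1, hz1⟩ := htr e
    obtain ⟨z2, hz2⟩ := htr (e * g)
    obtain ⟨z3, hz3⟩ := htr (e * h)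
    obtain ⟨z4, hz4⟩ := htr (e * (g * h))
    rw [map_mul, Units.val_mul] at hz2 hz3 hz4
    rw [map_mul, Units.val_mul] at hz4
    refine ⟨![z1, z2, z3, z4], ?_⟩
    ext i
    rw [hc4, hT]
    fin_cases i
    · exact hz1.symm
    · exact hz2.symm
    · exact hz3.symm
    · exact hz4.symm
  let L : Submodule ℤ (Fin 2 → ℚ) :=
    Submodule.span ℤ {x | ∃ (e : G) (i : Fin 2), x = ev i (ρ e : Matrix (Fin 2) (Fin 2) ℚ)}
  have hL : L ≤ Λ.map (ev 0) ⊔ Λ.map (ev 1) := by
    refine Submodule.span_le.2 ?_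
    rintro x ⟨e, i, rfl⟩
    fin_cases i
    · exact (le_sup_left : Λ.map (ev 0) ≤ _) (Submodule.mem_map_of_mem (hΛ e))
    · exact (le_sup_right : Λ.map (ev 1) ≤ _) (Submodule.mem_map_of_mem (hΛ e))
  have hfg : Λ.FG := Module.Finite.iff_fg.1 inferInstance
  have n3 : IsNoetherian ℤ ↥(Λ.map (ev 0) ⊔ Λ.map (ev 1)) :=
    isNoetherian_of_fg_of_noetherian _ ((hfg.map _).sup (hfg.map _))
  have n4 : IsNoetherian ℤ L := isNoetherian_of_le hL
  have hone : ∀ i : Fin 2, (Pi.single i 1 : Fin 2 → ℚ) ∈ L := by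
    intro i
    refine Submodule.subset_span ⟨1, i, ?_⟩
    funext j
    rw [hev, map_one, Units.val_one, Matrix.one_apply, Pi.single_apply]
  -- the action
  let f : G →* Module.End ℤ (Fin 2 → ℚ) :=
    { toFun := fun e => (Matrix.mulVecLin (ρ e : Matrix (Fin 2) (Fin 2) ℚ)).restrictScalars ℤ
      map_one' := by
        ext x j
        simp
      map_mul' := fun e e' => by
        ext x j
        simp }
  have hf : ∀ e x, f e x = (ρ e : Matrix (Fin 2) (Fin 2) ℚ).mulVec x := fun e x => rfl
  have hfL : ∀ e, ∀ x ∈ L, f e x ∈ L := by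
    intro e
    have : L ≤ L.comap (f e) := by
      refine Submodule.span_le.2 ?_
      rintro x ⟨e', i, rfl⟩
      refine Submodule.subset_span ⟨e * e', i, ?_⟩
      funext j
      rw [hf, hev, map_mul, Units.val_mul, Matrix.mul_apply]
      rfl
    exact this
  let F : G →* Module.End ℤ L :=
    { toFun := fun e => (f e).restrict (hfL e)
      map_one' := by
        ext x j
        change (f 1) (x : Fin 2 → ℚ) j = (x : Fin 2 → ℚ) j
        rw [map_one]
        rfl
      map_mul' := fun e e' => by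
        ext x j
        change (f (e * e')) (x : Fin 2 → ℚ) j = (f e) ((f e') (x : Fin 2 → ℚ)) j
        rw [map_mul]
        rfl }
  have hF : ∀ e (x : L), ((F e x : L) : Fin 2 → ℚ) = f e x := fun e x => rfl
  have hFinj : Function.Injective F := by
    intro e e' hee
    apply hρ
    apply Units.ext
    ext j i
    have h1 := congrArg Subtype.val (congrArg (fun t : Module.End ℤ L => t ⟨Pi.single i 1, hone i⟩) hee)
    simp only [hF, hf] at h1
    have h2 := congrFun h1 j
    rw [Matrix.mulVec_single_one, Matrix.mulVec_single_one] at h2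
    exact h2
  have hrank := lat_rank L hone
  let b : Module.Basis (Fin 2) ℤ L := (Module.finBasis ℤ L).reindex (finCongr hrank)
  let M : G →* Matrix (Fin 2) (Fin 2) ℤ :=
    ((LinearMap.toMatrixAlgEquiv b : Module.End ℤ L ≃ₐ[ℤ] Matrix (Fin 2) (Fin 2) ℤ) :
      Module.End ℤ L →* Matrix (Fin 2) (Fin 2) ℤ).comp F
  have hMinj : Function.Injective M := fun e e' hee =>
    hFinj ((LinearMap.toMatrixAlgEquiv b).injective hee)
  refine ⟨MonoidHom.toHomUnits M, fun e e' hee => hMinj ?_⟩
  have h1 := congrArg Units.val hee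
  rw [MonoidHom.coe_toHomUnits, MonoidHom.coe_toHomUnits] at h1
  exact h1

end Pool.Agent.TreeQ
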