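import Mathlib
import Pool.Agent.Lib.MP_8f66f0_al_TreeQ.Spec

/-! Groups of matrices such that any two elements have a common eigenvector. -/

set_option autoImplicit false

namespace Pool.Agent.TreeQ

section

variable {L : Type} [Field L]

/-- two proportional vectors -/
private theorem par (u b : Fin 2 → L) (hu : u ≠ 0) (h : u 0 * b 1 - u 1 * b 0 = 0) :
    ∃ c : L, b = c • u := by
  by_cases h0 : u 0 = 0
  · have h1 : u 1 ≠ 0 := by
      intro h1
      apply hu
      funext i
      fin_cases i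
      · exact h0
      · exact h1
    refine ⟨b 1 / u 1, ?_⟩
    rw [h0, zero_mul, zero_sub, neg_eq_zero] at h
    funext i
    fin_cases i
    · change b 0 = b 1 / u 1 * u 0
      rw [h0, mul_zero]
      exact (mul_eq_zero.1 h).resolve_left h1
    · change b 1 = b 1 / u 1 * u 1
      rw [div_mul_cancel₀ _ h1]
  · refine ⟨b 0 / u 0, ?_⟩
    funext i
    fin_cases i
    · change b 0 = b 0 / u 0 * u 0
      rw [div_mul_cancel₀ _ h0]
    · change b 1 = b 0 / u 0 * u 1
      field_simp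
      linear_combination h

private theorem comm_det (u f : Fin 2 → L) (h : Matrix (Fin 2) (Fin 2) L) :
    Matrix.det (Matrix.vecMulVec u f * h - h * Matrix.vecMulVec u f) =
      -((u 0 * h.mulVec u 1 - u 1 * h.mulVec u 0) *
        (f 1 * h.mulVec ![f 1, -f 0] 1 + f 0 * h.mulVec ![f 1, -f 0] 0)) := by
  simp [Matrix.det_fin_two, Matrix.vecMulVec_apply, Matrix.mul_apply, Matrix.mulVec, dotProduct]
  ring

/-- a singular matrix has rank at most one -/
private theorem rank_one (N : Matrix (Fin 2) (Fin 2) L) (hd : N.det = 0) (i j : Fin 2) :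
    N i j • N = Matrix.vecMulVec (fun k => N k j) (fun l => N i l) := by
  rw [Matrix.det_fin_two] at hd
  ext k l
  rw [Matrix.smul_apply, Matrix.vecMulVec_apply, smul_eq_mul]
  fin_cases i <;> fin_cases j <;> fin_cases k <;> fin_cases l <;> simp only [Fin.zero_eta,
    Fin.mk_one, Fin.isValue] <;> first | ring1 | linear_combination hd | linear_combination (-1 : L) * hd

end

section

variable {L G : Type} [Field L] [Group G] (ρ : G →* Matrix.GeneralLinearGroup (Fin 2) L)

/-- `v` is an eigenvector of `g` -/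
private def EV (v : Fin 2 → L) (g : G) : Prop :=
  ∃ c : L, (ρ g : Matrix (Fin 2) (Fin 2) L).mulVec v = c • v

private theorem EV.mul {v : Fin 2 → L} {g h : G} (hg : EV ρ v g) (hh : EV ρ v h) :
    EV ρ v (g * h) := by
  obtain ⟨c, hc⟩ := hg
  obtain ⟨d, hd⟩ := hh
  refine ⟨d * c, ?_⟩
  rw [map_mul, Units.val_mul, ← Matrix.mulVec_mulVec, hd, Matrix.mulVec_smul, hc, smul_smul]

private theorem EV.inv {v : Fin 2 → L} (hv : v ≠ 0) {g : G} (hg : EV ρ v g) : EV ρ v g⁻¹ := by
  obtain ⟨c, hc⟩ := hg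
  have h1 : v = c • (ρ g⁻¹ : Matrix (Fin 2) (Fin 2) L).mulVec v := by
    rw [← Matrix.mulVec_smul, ← hc, Matrix.mulVec_mulVec, ← Units.val_mul, ← map_mul,
      inv_mul_cancel, map_one, Units.val_one, Matrix.one_mulVec]
  have hc0 : c ≠ 0 := by
    rintro rfl
    rw [zero_smul] at h1
    exact hv h1
  refine ⟨c⁻¹, ?_⟩
  conv_rhs => rw [h1]
  rw [smul_smul, inv_mul_cancel₀ hc0, one_smul]

/-- the group is not the union of two proper subgroups -/
private theorem union {u w : Fin 2 → L} (hu : u ≠ 0) (hw : w ≠ 0)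
    (h : ∀ g : G, EV ρ u g ∨ EV ρ w g) : (∀ g : G, EV ρ u g) ∨ (∀ g : G, EV ρ w g) := by
  by_contra hc
  rw [not_or, not_forall, not_forall] at hc
  obtain ⟨⟨a, ha⟩, ⟨b, hb⟩⟩ := hc
  have ha' := (h a).resolve_left ha
  have hb' := (h b).resolve_right hb
  rcases h (a * b) with h1 | h1
  · apply ha
    have h2 := EV.mul ρ h1 (EV.inv ρ hu hb')
    rwa [mul_inv_cancel_right] at h2
  · apply hb
    have h2 := EV.mul ρ (EV.inv ρ hw ha') h1
    rwa [inv_mul_cancel_left] at h2

/-- a common eigenvector -/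
private theorem exists_ev [IsAlgClosed L]
    (hd : ∀ g h : G, Matrix.det ((ρ g : Matrix (Fin 2) (Fin 2) L) *
      (ρ h : Matrix (Fin 2) (Fin 2) L) -
      (ρ h : Matrix (Fin 2) (Fin 2) L) * (ρ g : Matrix (Fin 2) (Fin 2) L)) = 0) :
    ∃ v : Fin 2 → L, v ≠ 0 ∧ ∀ g : G, EV ρ v g := by
  by_cases hs : ∀ g : G, ∃ a : L, (ρ g : Matrix (Fin 2) (Fin 2) L) = a • 1
  · refine ⟨![1, 0], ?_, fun g => ?_⟩
    · intro h
      exact one_ne_zero (congrFun h 0)
    · obtain ⟨a, ha⟩ := hs g
      exact ⟨a, by rw [ha, Matrix.smul_mulVec, Matrix.one_mulVec]⟩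
  · rw [not_forall] at hs
    obtain ⟨g, hg⟩ := hs
    obtain ⟨a, ha⟩ : ∃ a : L, ((ρ g : Matrix (Fin 2) (Fin 2) L) - a • 1).det = 0 := by
      let p : Polynomial L := Polynomial.X ^ 2 -
        Polynomial.C (Matrix.trace (ρ g : Matrix (Fin 2) (Fin 2) L)) * Polynomial.X +
        Polynomial.C (Matrix.det (ρ g : Matrix (Fin 2) (Fin 2) L))
      have hp : p.degree = 2 := by
        unfold p
        compute_degree!
      obtain ⟨a, ha⟩ := IsAlgClosed.exists_root p (by rw [hp]; decide)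
      refine ⟨a, ?_⟩
      rw [Polynomial.IsRoot.def] at ha
      simp only [p, Polynomial.eval_add, Polynomial.eval_sub, Polynomial.eval_pow,
        Polynomial.eval_X, Polynomial.eval_mul, Polynomial.eval_C, Matrix.trace_fin_two,
        Matrix.det_fin_two] at ha
      rw [Matrix.det_fin_two]
      simp only [Matrix.sub_apply, Matrix.smul_apply, Matrix.one_apply_eq, smul_eq_mul,
        Matrix.one_apply_ne (zero_ne_one : (0 : Fin 2) ≠ 1),
        Matrix.one_apply_ne (one_ne_zero : (1 : Fin 2) ≠ 0)]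
      linear_combination ha
    obtain ⟨i, j, hij⟩ : ∃ i j, ((ρ g : Matrix (Fin 2) (Fin 2) L) - a • 1) i j ≠ 0 := by
      by_contra hc
      simp only [not_exists, not_not] at hc
      exact hg ⟨a, sub_eq_zero.1 (Matrix.ext hc)⟩
    generalize hN : (ρ g : Matrix (Fin 2) (Fin 2) L) - a • 1 = N at ha hij
    have hu : (fun k => N k j) ≠ 0 := fun h => hij (congrFun h i)
    have hw : (![N i 1, -N i 0] : Fin 2 → L) ≠ 0 := by
      intro h
      have h0 : N i 1 = 0 := congrFun h 0
      have h1 : -N i 0 = 0 := congrFun h 1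
      apply hij
      fin_cases j
      · exact neg_eq_zero.1 h1
      · exact h0
    have key : ∀ h : G, EV ρ (fun k => N k j) h ∨ EV ρ ![N i 1, -N i 0] h := by
      intro h
      have e1 : (ρ g : Matrix (Fin 2) (Fin 2) L) * (ρ h : Matrix (Fin 2) (Fin 2) L) -
          (ρ h : Matrix (Fin 2) (Fin 2) L) * (ρ g : Matrix (Fin 2) (Fin 2) L) =
          N * (ρ h : Matrix (Fin 2) (Fin 2) L) - (ρ h : Matrix (Fin 2) (Fin 2) L) * N := by
        rw [← hN, sub_mul, mul_sub, smul_mul_assoc, one_mul, mul_smul_comm, mul_one]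
        abel
      have e2 : Matrix.det ((N i j • N) * (ρ h : Matrix (Fin 2) (Fin 2) L) -
          (ρ h : Matrix (Fin 2) (Fin 2) L) * (N i j • N)) = 0 := by
        rw [smul_mul_assoc, mul_smul_comm, ← smul_sub, Matrix.det_smul, ← e1, hd, mul_zero]
      rw [rank_one N ha i j, comm_det, neg_eq_zero, mul_eq_zero] at e2
      rcases e2 with h2 | h2
      · exact Or.inl (par _ _ hu h2)
      · right
        refine par _ _ hw ?_
        change N i 1 * _ - -N i 0 * _ = 0
        linear_combination h2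
    rcases union ρ hu hw key with h1 | h1
    · exact ⟨_, hu, h1⟩
    · exact ⟨_, hw, h1⟩

end

theorem line : S_line := by
  intro K G _ _ ρ hρ hd
  let φ : K →+* AlgebraicClosure K := algebraMap K (AlgebraicClosure K)
  let ρ₁ : G →* Matrix.GeneralLinearGroup (Fin 2) (AlgebraicClosure K) :=
    (Matrix.GeneralLinearGroup.map φ).comp ρ
  have hval : ∀ g : G, (ρ₁ g : Matrix (Fin 2) (Fin 2) (AlgebraicClosure K)) =
    (ρ g : Matrix (Fin 2) (Fin 2) K).map φ := fun g => rfl
  have hρ₁ : Function.Injective ρ₁ := by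
    intro g h hgh
    apply hρ
    apply Units.ext
    have h1 : (ρ g : Matrix (Fin 2) (Fin 2) K).map φ = (ρ h : Matrix (Fin 2) (Fin 2) K).map φ := by
      rw [← hval, ← hval, hgh]
    exact Matrix.map_injective φ.injective h1
  have hd₁ : ∀ g h : G, Matrix.det ((ρ₁ g : Matrix (Fin 2) (Fin 2) (AlgebraicClosure K)) *
      (ρ₁ h : Matrix (Fin 2) (Fin 2) (AlgebraicClosure K)) -
      (ρ₁ h : Matrix (Fin 2) (Fin 2) (AlgebraicClosure K)) *
        (ρ₁ g : Matrix (Fin 2) (Fin 2) (AlgebraicClosure K))) = 0 := by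
    intro g h
    rw [hval, hval, ← Matrix.map_mul, ← Matrix.map_mul, ← Matrix.map_sub _ (map_sub φ)]
    have h1 := RingHom.map_det φ ((ρ g : Matrix (Fin 2) (Fin 2) K) *
      (ρ h : Matrix (Fin 2) (Fin 2) K) -
      (ρ h : Matrix (Fin 2) (Fin 2) K) * (ρ g : Matrix (Fin 2) (Fin 2) K))
    rw [hd g h, map_zero] at h1
    exact h1.symm
  obtain ⟨v, hv, hev⟩ := exists_ev ρ₁ hd₁
  obtain ⟨S, hS⟩ : ∃ S : Matrix.GeneralLinearGroup (Fin 2) (AlgebraicClosure K),
      (S : Matrix (Fin 2) (Fin 2) (AlgebraicClosure K)).mulVec ![1, 0] = v := by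
    by_cases h0 : v 0 = 0
    · have h1 : v 1 ≠ 0 := by
        intro h1
        apply hv
        funext i
        fin_cases i
        · exact h0
        · exact h1
      refine ⟨Matrix.GeneralLinearGroup.mkOfDetNeZero !![v 0, 1; v 1, 0] (by
        rw [Matrix.det_fin_two_of]; simpa using h1), ?_⟩
      funext i
      fin_cases i <;> simp [Matrix.GeneralLinearGroup.mkOfDetNeZero, Matrix.mulVec, dotProduct]
    · refine ⟨Matrix.GeneralLinearGroup.mkOfDetNeZero !![v 0, 0; v 1, 1] (by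
        rw [Matrix.det_fin_two_of]; simpa using h0), ?_⟩
      funext i
      fin_cases i <;> simp [Matrix.GeneralLinearGroup.mkOfDetNeZero, Matrix.mulVec, dotProduct]
  refine ⟨AlgebraicClosure K, inferInstance, (MulAut.conj S⁻¹).toMonoidHom.comp ρ₁,
    (MulAut.conj S⁻¹).injective.comp hρ₁, fun g => ?_⟩
  obtain ⟨c, hc⟩ := hev g
  have h1 : (((MulAut.conj S⁻¹).toMonoidHom.comp ρ₁ g : Matrix.GeneralLinearGroup (Fin 2)
      (AlgebraicClosure K)) : Matrix (Fin 2) (Fin 2) (AlgebraicClosure K)).mulVec ![1, 0] =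
      c • ![1, 0] := by
    change ((S⁻¹ * ρ₁ g * S⁻¹⁻¹ : Matrix.GeneralLinearGroup (Fin 2)
      (AlgebraicClosure K)) : Matrix (Fin 2) (Fin 2) (AlgebraicClosure K)).mulVec ![1, 0] = _
    rw [inv_inv, Units.val_mul, Units.val_mul, ← Matrix.mulVec_mulVec, ← Matrix.mulVec_mulVec, hS,
      hc, ← hS, Matrix.mulVec_smul, Matrix.mulVec_mulVec, ← Units.val_mul, inv_mul_cancel,
      Units.val_one, Matrix.one_mulVec]
  have h2 := congrFun h1 1
  simpa [Matrix.mulVec, dotProduct] using h2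

end Pool.Agent.TreeQ
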