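import Pool.Agent.Lib.MP_8f66f0_al_TreeQ.Spec

/-! Finitely generated rings of rational functions: a common denominator and an evaluation. -/

set_option autoImplicit false

namespace Pool.Agent.TreeQ

open Pool.Agent.TreeC Pointwise

private theorem loc_den (σ R : Type) [CommRing R] (j : R →+* FractionRing (MvPolynomial σ ℤ))
    (hfin : Algebra.FiniteType ℤ R) :
    ∃ f : MvPolynomial σ ℤ, f ≠ 0 ∧
      ∀ a : R, ∃ (k : ℕ) (b : MvPolynomial σ ℤ),
        j a * algebraMap (MvPolynomial σ ℤ) (FractionRing (MvPolynomial σ ℤ)) f ^ k =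
          algebraMap (MvPolynomial σ ℤ) (FractionRing (MvPolynomial σ ℤ)) b := by
  classical
  obtain ⟨S, hS⟩ := hfin.out
  have h1 : ∀ s : R, ∃ x y : MvPolynomial σ ℤ, y ≠ 0 ∧
      algebraMap (MvPolynomial σ ℤ) (FractionRing (MvPolynomial σ ℤ)) x =
        j s * algebraMap (MvPolynomial σ ℤ) (FractionRing (MvPolynomial σ ℤ)) y := by
    intro s
    obtain ⟨x, y, hy, hxy⟩ := IsFractionRing.div_surjective (A := MvPolynomial σ ℤ) (j s)
    have hy0 : y ≠ 0 := nonZeroDivisors.ne_zero hy
    have hy1 : algebraMap (MvPolynomial σ ℤ) (FractionRing (MvPolynomial σ ℤ)) y ≠ 0 := by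
      intro h
      exact hy0 (IsFractionRing.injective (MvPolynomial σ ℤ) (FractionRing (MvPolynomial σ ℤ))
        (by rw [h, map_zero]))
    refine ⟨x, y, hy0, ?_⟩
    rw [← hxy, div_mul_cancel₀ _ hy1]
  choose num den hden hnum using h1
  refine ⟨∏ s ∈ S, den s, Finset.prod_ne_zero_iff.2 fun s _ => hden s, ?_⟩
  intro a
  have ha : a ∈ Algebra.adjoin ℤ (S : Set R) := by
    rw [hS]
    exact Algebra.mem_top
  induction ha using Algebra.adjoin_induction with
  | mem x hx =>
    obtain ⟨c, hc⟩ := Finset.dvd_prod_of_mem den (Finset.mem_coe.1 hx)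
    refine ⟨1, num x * c, ?_⟩
    rw [hc, pow_one, map_mul, map_mul, hnum x]
    ring
  | algebraMap n =>
    refine ⟨0, (n : MvPolynomial σ ℤ), ?_⟩
    simp
  | add x y _ _ hx hy =>
    obtain ⟨k, b, hb⟩ := hx
    obtain ⟨l, c, hc⟩ := hy
    refine ⟨k + l, b * (∏ s ∈ S, den s) ^ l + c * (∏ s ∈ S, den s) ^ k, ?_⟩
    rw [map_add j, map_add, map_mul, map_mul, ← hb, ← hc, map_pow, map_pow, pow_add]
    ring
  | mul x y _ _ hx hy =>
    obtain ⟨k, b, hb⟩ := hx
    obtain ⟨l, c, hc⟩ := hy
    refine ⟨k + l, b * c, ?_⟩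
    rw [map_mul j, map_mul, ← hb, ← hc, pow_add]
    ring

private theorem loc_hom (σ R : Type) [CommRing R] (j : R →+* FractionRing (MvPolynomial σ ℤ))
    (f : MvPolynomial σ ℤ) (hf : f ≠ 0)
    (h : ∀ a : R, ∃ (k : ℕ) (b : MvPolynomial σ ℤ),
        j a * algebraMap (MvPolynomial σ ℤ) (FractionRing (MvPolynomial σ ℤ)) f ^ k =
          algebraMap (MvPolynomial σ ℤ) (FractionRing (MvPolynomial σ ℤ)) b) :
    Nonempty (R →+* ℚ) := by
  classical
  -- the evaluation
  obtain ⟨a, ha⟩ : ∃ a : σ → ℤ, MvPolynomial.eval a f ≠ 0 := by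
    by_contra hc
    push Not at hc
    exact hf (MvPolynomial.funext fun x => by rw [hc x, map_zero])
  have hfK : algebraMap (MvPolynomial σ ℤ) (FractionRing (MvPolynomial σ ℤ)) f ≠ 0 := by
    intro h0
    exact hf (IsFractionRing.injective (MvPolynomial σ ℤ) (FractionRing (MvPolynomial σ ℤ))
      (by rw [h0, map_zero]))
  let ι : Localization.Away f →+* FractionRing (MvPolynomial σ ℤ) :=
    IsLocalization.Away.lift f
      (g := algebraMap (MvPolynomial σ ℤ) (FractionRing (MvPolynomial σ ℤ))) (Ne.isUnit hfK)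
  have hι0 : ∀ x : MvPolynomial σ ℤ, ι (algebraMap (MvPolynomial σ ℤ) (Localization.Away f) x) =
      algebraMap (MvPolynomial σ ℤ) (FractionRing (MvPolynomial σ ℤ)) x := fun x =>
    IsLocalization.Away.lift_eq f (Ne.isUnit hfK) x
  have hι : Function.Injective ι := by
    rw [injective_iff_map_eq_zero]
    intro y hy
    obtain ⟨n, x, hx⟩ := IsLocalization.Away.surj f y
    have h2 : algebraMap (MvPolynomial σ ℤ) (FractionRing (MvPolynomial σ ℤ)) x = 0 := by
      rw [← hι0, ← hx, map_mul, hy, zero_mul]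
    have h3 : x = 0 := IsFractionRing.injective (MvPolynomial σ ℤ)
      (FractionRing (MvPolynomial σ ℤ)) (by rw [h2, map_zero])
    rw [h3, map_zero] at hx
    have hu : IsUnit (algebraMap (MvPolynomial σ ℤ) (Localization.Away f) f ^ n) :=
      (IsLocalization.Away.algebraMap_isUnit f).pow n
    exact (IsUnit.mul_left_eq_zero hu).1 hx
  have hr : ∀ x : R, ∃ y : Localization.Away f, ι y = j x := by
    intro x
    obtain ⟨k, b, hb⟩ := h x
    obtain ⟨v, hv⟩ := (IsLocalization.Away.algebraMap_isUnit (S := Localization.Away f) f).pow k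
    refine ⟨algebraMap (MvPolynomial σ ℤ) (Localization.Away f) b * ((v⁻¹ : (Localization.Away f)ˣ) :
      Localization.Away f), ?_⟩
    have hfk : (algebraMap (MvPolynomial σ ℤ) (FractionRing (MvPolynomial σ ℤ)) f) ^ k ≠ 0 :=
      pow_ne_zero k hfK
    apply mul_right_cancel₀ hfk
    rw [hb]
    have h4 : ι (v : Localization.Away f) =
        (algebraMap (MvPolynomial σ ℤ) (FractionRing (MvPolynomial σ ℤ)) f) ^ k := by
      rw [hv, map_pow, hι0]
    rw [← h4, ← map_mul, mul_assoc, Units.inv_mul, mul_one, hι0]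
  choose φ0 hφ0 using hr
  let φ : R →+* Localization.Away f :=
    { toFun := φ0
      map_one' := hι (by rw [hφ0, map_one, map_one])
      map_mul' := fun x y => hι (by rw [hφ0, map_mul, map_mul, hφ0, hφ0])
      map_zero' := hι (by rw [hφ0, map_zero, map_zero])
      map_add' := fun x y => hι (by rw [hφ0, map_add, map_add, hφ0, hφ0]) }
  have hfQ : IsUnit (((Int.castRingHom ℚ).comp (MvPolynomial.eval a)) f) := by
    apply Ne.isUnit
    rw [RingHom.comp_apply]
    simpa using ha
  exact ⟨(IsLocalization.Away.lift (S := Localization.Away f) f hfQ).comp φ⟩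

theorem loc : S_loc := by
  intro σ R _ j _ hfin
  obtain ⟨f, hf, h⟩ := loc_den σ R j hfin
  exact ⟨loc_hom σ R j f hf h, f, hf, h⟩

end Pool.Agent.TreeQ
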