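import Mathlib
import Pool.Agent.Lib.MP_8f66f0_al_TreeQ.Spec

/-! Torsion free groups of upper triangular matrices. -/

set_option autoImplicit false

namespace Pool.Agent.TreeQ

open Pool.Agent.TreeC

section

variable {L G : Type} [Field L] [Group G] (ρ : G →* Matrix.GeneralLinearGroup (Fin 2) L)

/-- the matrix of `g` -/
private abbrev mt (g : G) : Matrix (Fin 2) (Fin 2) L := (ρ g : Matrix (Fin 2) (Fin 2) L)

private theorem mt_mul (g h : G) (i j : Fin 2) :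
    mt ρ (g * h) i j = mt ρ g i 0 * mt ρ h 0 j + mt ρ g i 1 * mt ρ h 1 j := by
  unfold mt
  rw [map_mul, Units.val_mul, Matrix.mul_apply, Fin.sum_univ_two]

private theorem mt_ne (h0 : ∀ g : G, mt ρ g 1 0 = 0) (g : G) (i : Fin 2) : mt ρ g i i ≠ 0 := by
  have h1 : (mt ρ g).det ≠ 0 := ((Matrix.isUnit_iff_isUnit_det _).1 (ρ g).isUnit).ne_zero
  rw [Matrix.det_fin_two, h0 g, mul_zero, sub_zero] at h1
  fin_cases i
  · exact left_ne_zero_of_mul h1
  · exact right_ne_zero_of_mul h1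

/-- the diagonal characters -/
private noncomputable def chi (h0 : ∀ g : G, mt ρ g 1 0 = 0) (i : Fin 2) : G →* Lˣ :=
  MonoidHom.mk' (fun g => Units.mk0 (mt ρ g i i) (mt_ne ρ h0 g i)) (by
    intro g h
    apply Units.ext
    rw [Units.val_mul, Units.val_mk0, Units.val_mk0, Units.val_mk0, mt_mul]
    fin_cases i
    · change mt ρ g 0 0 * mt ρ h 0 0 + mt ρ g 0 1 * mt ρ h 1 0 = mt ρ g 0 0 * mt ρ h 0 0
      rw [h0 h, mul_zero, add_zero]
    · change mt ρ g 1 0 * mt ρ h 0 1 + mt ρ g 1 1 * mt ρ h 1 1 = mt ρ g 1 1 * mt ρ h 1 1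
      rw [h0 g, zero_mul, zero_add])

private theorem chi_val (h0 : ∀ g : G, mt ρ g 1 0 = 0) (i : Fin 2) (g : G) :
    (chi ρ h0 i g : L) = mt ρ g i i := rfl

/-- the diagonal entries are equal, if they are roots of unity -/
private theorem diag_eq (hρ : Function.Injective ρ) (h0 : ∀ g : G, mt ρ g 1 0 = 0)
    (htf : ∀ (g : G) (n : ℕ), 0 < n → g ^ n = 1 → g = 1) (g : G)
    (h1 : IsOfFinOrder (chi ρ h0 0 g)) (h2 : IsOfFinOrder (chi ρ h0 1 g)) :
    mt ρ g 0 0 = mt ρ g 1 1 := by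
  obtain ⟨m, hm, hm1⟩ := isOfFinOrder_iff_pow_eq_one.1 h1
  obtain ⟨k, hk, hk1⟩ := isOfFinOrder_iff_pow_eq_one.1 h2
  by_contra hne
  have e0 : mt ρ (g ^ (m * k)) 0 0 = 1 := by
    rw [← chi_val ρ h0, map_pow, pow_mul, hm1, one_pow, Units.val_one]
  have e1 : mt ρ (g ^ (m * k)) 1 1 = 1 := by
    rw [← chi_val ρ h0, map_pow, mul_comm, pow_mul, hk1, one_pow, Units.val_one]
  have hc : mt ρ (g * g ^ (m * k)) 0 1 = mt ρ (g ^ (m * k) * g) 0 1 := by
    rw [(Commute.self_pow g (m * k)).eq]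
  rw [mt_mul, mt_mul, e0, e1] at hc
  have ht : mt ρ (g ^ (m * k)) 0 1 = 0 := by
    have h3 : mt ρ (g ^ (m * k)) 0 1 * (mt ρ g 0 0 - mt ρ g 1 1) = 0 := by
      linear_combination hc
    exact (mul_eq_zero.1 h3).resolve_right (sub_ne_zero.2 hne)
  have hu : ρ (g ^ (m * k)) = 1 := by
    apply Units.ext
    ext i j
    fin_cases i <;> fin_cases j
    · exact e0
    · exact ht
    · exact h0 _
    · exact e1
  have hg : g = 1 := htf g (m * k) (Nat.mul_pos hm hk) (hρ (hu.trans (map_one ρ).symm))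
  apply hne
  rw [hg]
  unfold mt
  rw [map_one, Units.val_one, Matrix.one_apply_eq, Matrix.one_apply_eq]

end

private theorem quot_tf {A : Type} [CommGroup A] (a : A ⧸ CommGroup.torsion A) (n : ℕ)
    (hn : 0 < n) (h : a ^ n = 1) : a = 1 := by
  obtain ⟨x, rfl⟩ := QuotientGroup.mk_surjective a
  rw [← QuotientGroup.mk_pow, QuotientGroup.eq_one_iff] at h
  rw [QuotientGroup.eq_one_iff]
  exact IsOfFinOrder.of_pow h hn.ne'

theorem tri (h1 : S_abP) (h2 : S_zab) : S_tri := by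
  intro P hP L G _ _ ρ hρ htf h0
  have h0' : ∀ g : G, mt ρ g 1 0 = 0 := h0
  let q : Lˣ →* Lˣ ⧸ CommGroup.torsion Lˣ := QuotientGroup.mk' _
  let f : G →* (Lˣ ⧸ CommGroup.torsion Lˣ) × (Lˣ ⧸ CommGroup.torsion Lˣ) :=
    (q.comp (chi ρ h0' 0)).prod (q.comp (chi ρ h0' 1))
  have hker : ∀ g ∈ f.ker, mt ρ g 0 0 = mt ρ g 1 1 := by
    intro g hg
    have h3 := (Prod.ext_iff.1 (MonoidHom.mem_ker.1 hg))
    exact diag_eq ρ hρ h0' htf g ((QuotientGroup.eq_one_iff _).1 h3.1)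
      ((QuotientGroup.eq_one_iff _).1 h3.2)
  refine h2 P hP G _ f ?_ (h1 P hP f.ker ?_ ?_)
  · intro a n hn ha
    have h3 := Prod.ext_iff.1 ha
    exact Prod.ext (quot_tf a.1 n hn h3.1) (quot_tf a.2 n hn h3.2)
  · rintro ⟨a, ha⟩ ⟨b, hb⟩
    apply Subtype.ext
    change a * b = b * a
    apply hρ
    have ea := hker a ha
    have eb := hker b hb
    apply Units.ext
    ext i j
    change mt ρ (a * b) i j = mt ρ (b * a) i j
    rw [mt_mul, mt_mul]
    fin_cases i <;> fin_cases j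
    · change mt ρ a 0 0 * mt ρ b 0 0 + mt ρ a 0 1 * mt ρ b 1 0 =
        mt ρ b 0 0 * mt ρ a 0 0 + mt ρ b 0 1 * mt ρ a 1 0
      rw [h0' a, h0' b]
      ring
    · change mt ρ a 0 0 * mt ρ b 0 1 + mt ρ a 0 1 * mt ρ b 1 1 =
        mt ρ b 0 0 * mt ρ a 0 1 + mt ρ b 0 1 * mt ρ a 1 1
      rw [← ea, ← eb]
      ring
    · change mt ρ a 1 0 * mt ρ b 0 0 + mt ρ a 1 1 * mt ρ b 1 0 =
        mt ρ b 1 0 * mt ρ a 0 0 + mt ρ b 1 1 * mt ρ a 1 0
      rw [h0' a, h0' b]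
      ring
    · change mt ρ a 1 0 * mt ρ b 0 1 + mt ρ a 1 1 * mt ρ b 1 1 =
        mt ρ b 1 0 * mt ρ a 0 1 + mt ρ b 1 1 * mt ρ a 1 1
      rw [h0' a, h0' b]
      ring
  · rintro ⟨a, ha⟩ n hn h
    apply Subtype.ext
    exact htf a n hn (congrArg Subtype.val h)

end Pool.Agent.TreeQ
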