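import Pool.Agent.Lib.MP_8f66f0_al_TreeQ.Spec
import Pool.Agent.Lib.MP_8f66f0_al_Tree.Eval

/-! The valuations of a factorial domain at the prime factors of an element. (helper73) -/

set_option autoImplicit false

namespace Pool.Agent.TreeQ

open Pool.Agent.TreeC

section Ufd

variable {A : Type} [CommRing A] [IsDomain A] [UniqueFactorizationMonoid A]

private theorem ufd_fin {q : A} (hq : Prime q) {a : A} (ha : a ≠ 0) : FiniteMultiplicity q a :=
  FiniteMultiplicity.of_not_isUnit hq.not_isUnit ha

open Classical in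
/-- The valuation `exp (- multiplicity q a)`. -/
private noncomputable def vmul {q : A} (hq : Prime q) :
    Valuation A (WithZero (Multiplicative ℤ)) where
  toFun a := if a = 0 then 0 else WithZero.exp (-(multiplicity q a : ℤ))
  map_zero' := by simp
  map_one' := by
    have h : multiplicity q 1 = 0 :=
      multiplicity_eq_zero.2 fun h => hq.not_isUnit (isUnit_of_dvd_one h)
    rw [if_neg one_ne_zero, h]
    rfl
  map_mul' a b := by
    by_cases ha : a = 0
    · simp [ha]
    by_cases hb : b = 0
    · simp [hb]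
    rw [if_neg (mul_ne_zero ha hb), if_neg ha, if_neg hb,
      multiplicity_mul hq (ufd_fin hq (mul_ne_zero ha hb)), Nat.cast_add, neg_add,
      WithZero.exp_add]
  map_add_le_max' a b := by
    by_cases ha : a = 0
    · simp [ha]
    by_cases hb : b = 0
    · simp [hb]
    by_cases hab : a + b = 0
    · rw [if_pos hab]
      exact zero_le
    rw [if_neg hab, if_neg ha, if_neg hb, le_max_iff, WithZero.exp_le_exp, WithZero.exp_le_exp]
    have h : min (multiplicity q a) (multiplicity q b) ≤ multiplicity q (a + b) := by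
      rw [← (ufd_fin hq hab).pow_dvd_iff_le_multiplicity]
      refine dvd_add ?_ ?_
      · exact (ufd_fin hq ha).pow_dvd_iff_le_multiplicity.2 (min_le_left _ _)
      · exact (ufd_fin hq hb).pow_dvd_iff_le_multiplicity.2 (min_le_right _ _)
    rw [min_le_iff] at h
    rcases h with h | h
    · left
      omega
    · right
      omega

private theorem vmul_apply {q : A} (hq : Prime q) {a : A} (ha : a ≠ 0) :
    vmul hq a = WithZero.exp (-(multiplicity q a : ℤ)) := by
  classical
  change (if a = 0 then 0 else WithZero.exp (-(multiplicity q a : ℤ))) = _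
  rw [if_neg ha]

private theorem vmul_le {q : A} (hq : Prime q) :
    nonZeroDivisors A ≤ (vmul hq).supp.primeCompl := by
  intro f hf
  have hf0 : f ≠ 0 := nonZeroDivisors.ne_zero hf
  intro h
  have h1 : vmul hq f = 0 := h
  rw [vmul_apply hq hf0] at h1
  exact WithZero.exp_ne_zero h1

/-- Divisibility can be tested with the powers of primes. -/
private theorem ufd_dvd (a : A) : a ≠ 0 → ∀ b : A, (∀ (q : A) (n : ℕ), Prime q → q ^ n ∣ a →
    q ^ n ∣ b) → a ∣ b := by
  refine UniqueFactorizationMonoid.induction_on_prime a (fun h => absurd rfl h) ?_ ?_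
  · intro u hu _ b _
    exact hu.dvd
  · intro a p ha hp ih _ b hb
    have h1 : p ∣ b := by
      have := hb p 1 hp (by rw [pow_one]; exact dvd_mul_right p a)
      rwa [pow_one] at this
    obtain ⟨c, rfl⟩ := h1
    refine mul_dvd_mul_left p (ih ha c fun q n hq hn => ?_)
    by_cases hqp : q ∣ p
    · obtain ⟨u, hu⟩ := (hq.associated_of_dvd hp hqp)
      have h2 : q ^ (n + 1) ∣ p * c := by
        refine hb q (n + 1) hq ?_
        rw [pow_succ', ← hu]
        exact mul_dvd_mul (dvd_mul_right q _) hn
      rw [pow_succ', ← hu, mul_assoc] at h2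
      have h3 : q ^ n ∣ (u : A) * c := (mul_dvd_mul_iff_left hq.ne_zero).1 h2
      exact (Units.dvd_mul_left).1 h3
    · exact hq.pow_dvd_of_dvd_mul_left n hqp (hb q n hq (hn.mul_left p))

private theorem ufd_main {f : A} (hf : f ≠ 0) (k : ℕ) {b : A} (hb : b ≠ 0)
    (h : ∀ q ∈ UniqueFactorizationMonoid.factors f, multiplicity q (f ^ k) ≤ multiplicity q b) :
    f ^ k ∣ b := by
  refine ufd_dvd _ (pow_ne_zero k hf) b fun q n hq hn => ?_
  rcases Nat.eq_zero_or_pos n with rfl | hn0
  · rw [pow_zero]
    exact one_dvd _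
  have h1 : q ∣ f := by
    refine hq.dvd_of_dvd_pow (n := k) ((dvd_pow_self q hn0.ne').trans hn)
  obtain ⟨q', hq', hqq⟩ := UniqueFactorizationMonoid.exists_mem_factors_of_dvd hf hq.irreducible h1
  have hp' : Prime q' := UniqueFactorizationMonoid.prime_of_factor q' hq'
  have h2 : q' ^ n ∣ f ^ k := ((hqq.pow_pow (n := n)).dvd_iff_dvd_left).1 hn
  have h3 : n ≤ multiplicity q' (f ^ k) :=
    (ufd_fin hp' (pow_ne_zero k hf)).pow_dvd_iff_le_multiplicity.1 h2
  have h4 : q' ^ n ∣ b :=
    (ufd_fin hp' hb).pow_dvd_iff_le_multiplicity.2 (h3.trans (h q' hq'))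
  exact ((hqq.pow_pow (n := n)).dvd_iff_dvd_left).2 h4

end Ufd

theorem ufd : S_ufd := by
  intro A _ _ _ f hf
  have hex : ∀ q : {q : A // Prime q}, ∃ w : EVal (FractionRing A), ∀ x, 0 ≤ w.w x ↔
      (vmul q.2).extendToLocalization (vmul_le q.2) (FractionRing A) x ≤ 1 :=
    fun q => eval _ _
  choose W hW using hex
  let l := (UniqueFactorizationMonoid.factors f).toList
  have hl : ∀ i : Fin l.length, Prime (l.get i) := fun i =>
    UniqueFactorizationMonoid.prime_of_factor _ (Multiset.mem_toList.1 (List.get_mem l i))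
  refine ⟨l.length, fun i => W ⟨l.get i, hl i⟩, fun x k b hx hw => ?_⟩
  by_cases hb : b = 0
  · rw [hb, map_zero] at hx
    have hf1 : algebraMap A (FractionRing A) f ^ k ≠ 0 :=
      pow_ne_zero k (by rwa [Ne, FaithfulSMul.algebraMap_eq_zero_iff])
    refine ⟨0, ?_⟩
    rw [map_zero]
    exact (mul_eq_zero.1 hx).resolve_right hf1
  have hdvd : f ^ k ∣ b := by
    refine ufd_main hf k hb fun q hq => ?_
    obtain ⟨i, hi⟩ := List.get_of_mem (Multiset.mem_toList.2 hq)
    have hqp : Prime q := UniqueFactorizationMonoid.prime_of_factor q hq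
    have h1 : 0 ≤ (W ⟨q, hqp⟩).w x := by
      have h2 := hw i
      have h3 : (⟨l.get i, hl i⟩ : {q : A // Prime q}) = ⟨q, hqp⟩ := Subtype.ext hi
      change 0 ≤ (W ⟨l.get i, hl i⟩).w x at h2
      rw [h3] at h2
      exact h2
    rw [hW] at h1
    have h4 := congrArg ((vmul hqp).extendToLocalization (vmul_le hqp) (FractionRing A)) hx
    rw [← map_pow, map_mul, Valuation.extendToLocalization_apply_map_apply,
      Valuation.extendToLocalization_apply_map_apply] at h4
    have h5 : vmul hqp b ≤ vmul hqp (f ^ k) := by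
      rw [← h4]
      exact mul_le_of_le_one_left' h1
    rw [vmul_apply hqp hb, vmul_apply hqp (pow_ne_zero k hf), WithZero.exp_le_exp] at h5
    omega
  obtain ⟨c, rfl⟩ := hdvd
  refine ⟨c, ?_⟩
  have hf1 : algebraMap A (FractionRing A) f ^ k ≠ 0 :=
    pow_ne_zero k (by rwa [Ne, FaithfulSMul.algebraMap_eq_zero_iff])
  apply mul_right_cancel₀ hf1
  rw [hx, map_mul, map_pow, mul_comm]

end Pool.Agent.TreeQ
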