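import Mathlib
import Pool.Agent.Lib.MP_8f66f0_al_TreeQ.GlQ
import Pool.Agent.Lib.MP_8f66f0_al_TreeQ.Zab
import Pool.Agent.Lib.MP_8f66f0_al_TreeQ.Line
import Pool.Agent.Lib.MP_8f66f0_al_TreeQ.Tri
import Pool.Agent.Lib.MP_8f66f0_al_TreeQ.Inj
import Pool.Agent.Lib.MP_8f66f0_al_TreeQ.Lat
import Pool.Agent.Lib.MP_8f66f0_al_TreeQ.Fnest
import Pool.Agent.Lib.MP_8f66f0_al_TreeQ.Ffin
import Pool.Agent.Lib.MP_8f66f0_al_TreeQ.Ufd
import Pool.Agent.Lib.MP_8f66f0_al_TreeQ.VinfZ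
import Pool.Agent.Lib.MP_8f66f0_al_TreeQ.Loc
import Pool.Agent.Lib.MP_8f66f0_al_Tree.AllP

/-! Torsion free subgroups of `GL_2` over rings of rational functions over `ℚ` belong to every
class of groups which is closed under actions on trees. -/

set_option autoImplicit false

namespace Pool.Agent.TreeQ

theorem glQ_all : S_glQ :=
  glQ (zab zr) line (tri TreeC.abP (zab zr)) inj lat (fsys fnest ffin fadj) fstab ufd vinfZ loc
    (TreeC.descP TreeC.gl_all (TreeC.glst TreeC.nm))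

end Pool.Agent.TreeQ
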