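import Mathlib
import Pool.Agent.Lib.MP_8f66f0_al_TreeQ.Spec

/-! Representations in `GL_2` of an arbitrary commutative ring: a group belongs to every class of
groups which is closed under actions on trees, if its subgroups whose elements have traces and
determinants which are integral over the integers belong to the class. -/

set_option autoImplicit false

namespace Pool.Agent.TreeQ

open Pool.Agent.TreeC Pointwise

/-- The traces and determinants of all elements of `D` are integral over `ℤ`. -/
def IntTr {G R : Type} [Group G] [CommRing R] (ρ : G →* Matrix.GeneralLinearGroup (Fin 2) R)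
    (D : Subgroup G) : Prop :=
  ∀ g ∈ D, IsIntegral ℤ (Matrix.trace (ρ g : Matrix (Fin 2) (Fin 2) R)) ∧
    IsIntegral ℤ (Matrix.det (ρ g : Matrix (Fin 2) (Fin 2) R))

/-- The reduction theorem. -/
def S_red : Prop :=
  ∀ (P : (G : Type) → [Group G] → Prop), TCl P → ∀ (R G : Type) [CommRing R] [Group G]
    (ρ : G →* Matrix.GeneralLinearGroup (Fin 2) R),
    (∀ D : Subgroup G, IntTr ρ D → P D) → P G

/-- Finitely many valuations detect the elements which are integral over `ℤ`. -/
def S_valR0 : Prop :=
  ∀ (R : Type) [CommRing R], Algebra.FiniteType ℤ R →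
    ∃ (n : ℕ) (F : Fin n → Type) (_ : ∀ i, Field (F i)) (f : ∀ i, R →+* F i)
      (w : ∀ i, EVal (F i)), ∀ a : R, (∀ i, 0 ≤ (w i).w (f i a)) → IsIntegral ℤ a

private theorem eval_one {F : Type} [Field F] (w : EVal F) : w.w 1 = 0 := by
  have h1 : w.w 1 ≠ ⊤ := fun h => one_ne_zero ((w.top_iff 1).1 h)
  have h2 := w.mul 1 1
  rw [mul_one] at h2
  obtain ⟨n, hn⟩ := WithTop.ne_top_iff_exists.1 h1
  rw [← hn] at h2 ⊢
  have h3 : n = n + n := by exact_mod_cast h2
  have h4 : n = 0 := by omega
  rw [h4]
  rfl

private theorem nonneg_of_add {x : WithTop ℤ} (h : 0 ≤ x + x) : 0 ≤ x := by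
  induction x using WithTop.recTopCoe with
  | top => exact le_top
  | coe n =>
    have h1 : (0 : ℤ) ≤ n + n := by exact_mod_cast h
    have h2 : (0 : ℤ) ≤ n := by omega
    exact_mod_cast h2

private theorem unit_ne {F : Type} [Field F] (w : EVal F) (u : Fˣ) : w.w (u : F) ≠ ⊤ :=
  fun h => u.ne_zero ((w.top_iff _).1 h)

/-- A valuation as a homomorphism from the units. -/
private noncomputable def evh {F : Type} [Field F] (w : EVal F) : Fˣ →* Multiplicative ℤ where
  toFun u := Multiplicative.ofAdd ((w.w (u : F)).untop (unit_ne w u))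
  map_one' := by
    have h1 : w.w ((1 : Fˣ) : F) = 0 := by rw [Units.val_one, eval_one]
    have h2 : (w.w ((1 : Fˣ) : F)).untop (unit_ne w 1) = 0 := by
      rw [WithTop.untop_eq_iff]
      exact h1
    rw [h2]
    rfl
  map_mul' u v := by
    rw [← ofAdd_add]
    congr 1
    rw [WithTop.untop_eq_iff, WithTop.coe_add, WithTop.coe_untop, WithTop.coe_untop, Units.val_mul,
      w.mul]

private theorem evh_ker {F : Type} [Field F] (w : EVal F) (u : Fˣ) (h : evh w u = 1) :
    w.w (u : F) = 0 := by
  have h1 : (w.w (u : F)).untop (unit_ne w u) = 0 := h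
  rw [WithTop.untop_eq_iff] at h1
  exact h1

private theorem core (h1 : S_zab) (hd : S_descP) (hv : S_valR0)
    (P : (G : Type) → [Group G] → Prop) (hP : TCl P) (R : Type) [CommRing R]
    (hft : Algebra.FiniteType ℤ R) (G : Type) [Group G]
    (ρ : G →* Matrix.GeneralLinearGroup (Fin 2) R)
    (hyp : ∀ D : Subgroup G, IntTr ρ D → P D) : P G := by
  classical
  obtain ⟨n, F, _, j, w, hw⟩ := hv R hft
  let ρF : ∀ i, G →* Matrix.GeneralLinearGroup (Fin 2) (F i) := fun i =>
    (Matrix.GeneralLinearGroup.map (j i)).comp ρ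
  have edet : ∀ (i : Fin n) (g : G), Matrix.det (ρF i g : Matrix (Fin 2) (Fin 2) (F i)) =
      j i (Matrix.det (ρ g : Matrix (Fin 2) (Fin 2) R)) := by
    intro i g
    exact (RingHom.map_det (j i) (ρ g : Matrix (Fin 2) (Fin 2) R)).symm
  have etr : ∀ (i : Fin n) (g : G), Matrix.trace (ρF i g : Matrix (Fin 2) (Fin 2) (F i)) =
      j i (Matrix.trace (ρ g : Matrix (Fin 2) (Fin 2) R)) := by
    intro i g
    have e0 : (ρF i g : Matrix (Fin 2) (Fin 2) (F i)) =
      (ρ g : Matrix (Fin 2) (Fin 2) R).map (j i) := rfl
    rw [e0]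
    simp [Matrix.trace]
  refine hd P hP G n F ρF w ?_
  intro Δ hΔ
  let f : Δ →* (Fin n → Multiplicative ℤ) :=
    { toFun := fun g i => evh (w i) (Matrix.GeneralLinearGroup.det (ρF i (g : G)))
      map_one' := by
        funext i
        simp
      map_mul' := by
        intro a b
        funext i
        simp }
  refine h1 P hP Δ (Fin n → Multiplicative ℤ) f ?_ ?_
  · intro a m hm ha
    funext i
    have e1 : (a i) ^ m = 1 := congrFun ha i
    have e2 : (m : ℤ) * (Multiplicative.toAdd (a i)) = 0 := by
      have := congrArg Multiplicative.toAdd e1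
      rw [toAdd_pow, toAdd_one, nsmul_eq_mul] at this
      exact this
    have e3 : Multiplicative.toAdd (a i) = 0 := by
      rcases mul_eq_zero.1 e2 with h | h
      · omega
      · exact h
    exact e3
  · have hval : ∀ (g : f.ker) (i : Fin n), (w i).w (j i (Matrix.det
        (ρ ((g : Δ) : G) : Matrix (Fin 2) (Fin 2) R))) = 0 := by
      intro g i
      have e1 : f (g : Δ) = 1 := g.2
      have e2 := evh_ker (w i) _ (congrFun e1 i)
      rw [← edet]
      exact e2
    have hD : IntTr ρ (f.ker.map Δ.subtype) := by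
      rintro _ ⟨g, hg, rfl⟩
      have hg0 := hval ⟨g, hg⟩
      constructor
      · refine hw _ fun i => ?_
        have e1 := hΔ (g : G) g.2 i
        rw [edet, etr] at e1
        have e2 : (0 : WithTop ℤ) ≤ _ := (hg0 i).symm.le.trans e1
        exact nonneg_of_add e2
      · exact hw _ fun i => (hg0 i).symm.le
    exact hP.iso _ _ (f.ker.equivMapOfInjective Δ.subtype Δ.subtype_injective).symm (hyp _ hD)

theorem red (h1 : S_zab) (hd : S_descP) (hv : S_valR0) : S_red := by
  classical
  intro P hP R G _ _ ρ hyp
  refine hP.directed G {K | K.FG} ⟨⊥, Subgroup.FG.bot⟩ ?_ ?_ ?_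
  · intro K hK K' hK'
    exact ⟨K ⊔ K', Subgroup.FG.sup hK hK', le_sup_left, le_sup_right⟩
  · intro g
    exact ⟨Subgroup.closure {g}, ⟨{g}, by simp⟩, Subgroup.subset_closure rfl⟩
  · intro K hK
    -- the ring generated by the entries
    have hfg : Group.FG K := (Group.fg_iff_subgroup_fg K).2 hK
    let ι : K →* Matrix.GeneralLinearGroup (Fin 2) R := ρ.comp K.subtype
    obtain ⟨S, hS⟩ := Group.fg_def.1 hfg
    let T : Finset R := S.biUnion fun s => (Finset.univ : Finset (Fin 2 × Fin 2)).biUnion fun q =>
      {(ι s : Matrix (Fin 2) (Fin 2) R) q.1 q.2, (ι s⁻¹ : Matrix (Fin 2) (Fin 2) R) q.1 q.2}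
    let R0 : Subalgebra ℤ R := Algebra.adjoin ℤ (T : Set R)
    have hmem : ∀ g : K, ∀ i k, (ι g : Matrix (Fin 2) (Fin 2) R) i k ∈ R0 ∧
        (ι g⁻¹ : Matrix (Fin 2) (Fin 2) R) i k ∈ R0 := by
      intro g
      have hg : g ∈ Subgroup.closure (S : Set K) := by
        rw [hS]
        exact Subgroup.mem_top g
      induction hg using Subgroup.closure_induction with
      | mem x hx =>
        intro i k
        constructor
        · apply Algebra.subset_adjoin
          simp only [T, Finset.coe_biUnion, Set.mem_iUnion]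
          exact ⟨x, hx, (i, k), by simp, by simp⟩
        · apply Algebra.subset_adjoin
          simp only [T, Finset.coe_biUnion, Set.mem_iUnion]
          exact ⟨x, hx, (i, k), by simp, by simp⟩
      | one =>
        intro i k
        rw [inv_one, map_one]
        have h1 : ((1 : Matrix.GeneralLinearGroup (Fin 2) R) : Matrix (Fin 2) (Fin 2) R) i k ∈
            R0 := by
          rw [Units.val_one, Matrix.one_apply]
          split_ifs
          · exact R0.one_mem
          · exact R0.zero_mem
        exact ⟨h1, h1⟩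
      | mul x y _ _ hx hy =>
        intro i k
        rw [mul_inv_rev, map_mul, map_mul, Units.val_mul, Units.val_mul, Matrix.mul_apply,
          Matrix.mul_apply]
        exact ⟨R0.sum_mem fun l _ => R0.mul_mem (hx i l).1 (hy l k).1,
          R0.sum_mem fun l _ => R0.mul_mem (hy i l).2 (hx l k).2⟩
      | inv x _ hx =>
        intro i k
        rw [inv_inv]
        exact ⟨(hx i k).2, (hx i k).1⟩
    let J : K →* Matrix (Fin 2) (Fin 2) R0 :=
      { toFun := fun g => Matrix.of fun i k =>
          ⟨(ι g : Matrix (Fin 2) (Fin 2) R) i k, (hmem g i k).1⟩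
        map_one' := by
          ext i k
          change (ι 1 : Matrix (Fin 2) (Fin 2) R) i k =
            (((1 : Matrix (Fin 2) (Fin 2) R0) i k : R0) : R)
          rw [map_one, Units.val_one, Matrix.one_apply, Matrix.one_apply]
          split_ifs <;> rfl
        map_mul' := by
          intro x y
          ext i k
          have e1 : (ι (x * y) : Matrix (Fin 2) (Fin 2) R) i k =
              ∑ l, (ι x : Matrix (Fin 2) (Fin 2) R) i l *
                (ι y : Matrix (Fin 2) (Fin 2) R) l k := by
            rw [map_mul, Units.val_mul, Matrix.mul_apply]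
          refine e1.trans ?_
          rw [Matrix.mul_apply, AddSubmonoidClass.coe_finsetSum]
          rfl }
    let u : K →* Matrix.GeneralLinearGroup (Fin 2) R0 := J.toHomUnits
    have hft : Algebra.FiniteType ℤ R0 := by
      rw [← Subalgebra.fg_iff_finiteType]
      exact Subalgebra.fg_adjoin_finset T
    refine core h1 hd hv P hP R0 hft K u ?_
    intro D hD
    have hD' : IntTr ρ (D.map K.subtype) := by
      rintro _ ⟨g, hg, rfl⟩
      obtain ⟨e1, e2⟩ := hD g hg
      have e3 : (ρ (K.subtype g) : Matrix (Fin 2) (Fin 2) R) =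
          (u g : Matrix (Fin 2) (Fin 2) R0).map R0.val := rfl
      constructor
      · have e4 : Matrix.trace (ρ (K.subtype g) : Matrix (Fin 2) (Fin 2) R) =
            R0.val (Matrix.trace (u g : Matrix (Fin 2) (Fin 2) R0)) := by
          rw [e3]
          simp [Matrix.trace]
        rw [e4]
        exact e1.map R0.val
      · have e4 : Matrix.det (ρ (K.subtype g) : Matrix (Fin 2) (Fin 2) R) =
            R0.val (Matrix.det (u g : Matrix (Fin 2) (Fin 2) R0)) := by
          rw [e3]
          exact (AlgHom.map_det R0.val (u g : Matrix (Fin 2) (Fin 2) R0)).symm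
        rw [e4]
        exact e2.map R0.val
    exact hP.iso _ _ (D.equivMapOfInjective K.subtype K.subtype_injective).symm (hyp _ hD')

end Pool.Agent.TreeQ
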