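import Mathlib
import Pool.Agent.Lib.MP_8f66f0_al_TreeQ.Val0
import Pool.Agent.Lib.MP_8f66f0_al_Tree.Eval

/-! Finitely generated commutative rings: finitely many homomorphisms to fields with discrete
valuations detect the elements which are integral over the integers. -/

set_option autoImplicit false

namespace Pool.Agent.TreeQ

open Pool.Agent.TreeC

private theorem dom (h1 : S_val) (h2 : S_ext) (h3 : S_eval) (A : Type) [CommRing A] [IsDomain A]
    (hft : Algebra.FiniteType ℤ A) :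
    ∃ (n : ℕ) (w : Fin n → EVal (FractionRing A)),
      ∀ a : A, (∀ i, 0 ≤ (w i).w (algebraMap A (FractionRing A) a)) → IsIntegral ℤ a := by
  have key : ∃ (n : ℕ) (w : Fin n → Valuation (FractionRing A) (WithZero (Multiplicative ℤ))),
      ∀ a : A, (∀ i, w i (algebraMap A (FractionRing A) a) ≤ 1) → IsIntegral ℤ a := by
    obtain ⟨p, hp⟩ := CharP.exists A
    rcases CharP.char_is_prime_or_zero A p with hp0 | hp0
    · have : Fact p.Prime := ⟨hp0⟩
      exact h1 A p hft
    · subst hp0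
      have : CharZero A := CharP.charP_to_charZero A
      exact val0 h2 A hft
  obtain ⟨n, w, hw⟩ := key
  choose e he using fun i => h3 (FractionRing A) (w i)
  exact ⟨n, e, fun a ha => hw a fun i => (he i _).1 (ha i)⟩

theorem valR0 (h1 : S_val) (h2 : S_ext) (h3 : S_eval) (R : Type) [CommRing R]
    (hft : Algebra.FiniteType ℤ R) :
    ∃ (n : ℕ) (F : Fin n → Type) (_ : ∀ i, Field (F i)) (f : ∀ i, R →+* F i)
      (w : ∀ i, EVal (F i)), ∀ a : R, (∀ i, 0 ≤ (w i).w (f i a)) → IsIntegral ℤ a := by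
  classical
  have : IsNoetherianRing R := Algebra.FiniteType.isNoetherianRing ℤ R
  have hfin : (minimalPrimes R).Finite := minimalPrimes.finite_of_isNoetherianRing R
  have : Finite (minimalPrimes R) := hfin
  let _ : Fintype (minimalPrimes R) := Fintype.ofFinite _
  have hpr : ∀ P : minimalPrimes R, P.1.IsPrime := fun P => P.2.1.1
  have hP : ∀ P : minimalPrimes R, ∃ (n : ℕ) (w : Fin n → EVal (FractionRing (R ⧸ P.1))),
      ∀ a : R ⧸ P.1, (∀ i, 0 ≤ (w i).w (algebraMap (R ⧸ P.1) (FractionRing (R ⧸ P.1)) a)) →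
        IsIntegral ℤ a := by
    intro P
    exact dom h1 h2 h3 (R ⧸ P.1)
      (hft.of_surjective (Ideal.Quotient.mkₐ ℤ P.1) Ideal.Quotient.mk_surjective)
  choose n w hw using hP
  obtain ⟨N, ⟨e⟩⟩ := Finite.exists_equiv_fin (Σ P : minimalPrimes R, Fin (n P))
  refine ⟨N, fun i => FractionRing (R ⧸ (e.symm i).1.1), fun i => inferInstance,
    fun i => (algebraMap (R ⧸ (e.symm i).1.1) (FractionRing (R ⧸ (e.symm i).1.1))).comp
      (Ideal.Quotient.mk (e.symm i).1.1), fun i => w (e.symm i).1 (e.symm i).2, fun a ha => ?_⟩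
  have hall : ∀ j : (Σ P : minimalPrimes R, Fin (n P)), 0 ≤ (w j.1 j.2).w
      (algebraMap (R ⧸ j.1.1) (FractionRing (R ⧸ j.1.1)) (Ideal.Quotient.mk j.1.1 a)) := by
    intro j
    obtain ⟨i, rfl⟩ := e.symm.surjective j
    exact ha i
  have hint : ∀ P : minimalPrimes R, IsIntegral ℤ (Ideal.Quotient.mk P.1 a) :=
    fun P => hw P _ fun i => hall ⟨P, i⟩
  choose Q hQ1 hQ2 using hint
  have hmem : ∀ P : minimalPrimes R, Polynomial.aeval a (Q P) ∈ P.1 := by
    intro P
    have h := hQ2 P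
    rw [← Polynomial.aeval_def] at h
    rw [← Ideal.Quotient.eq_zero_iff_mem]
    have h3 := Polynomial.aeval_algHom_apply (Ideal.Quotient.mkₐ ℤ P.1) a (Q P)
    rw [Ideal.Quotient.mkₐ_eq_mk] at h3
    rw [← h3]
    exact h
  have hnil : IsNilpotent (Polynomial.aeval a (∏ P, Q P)) := by
    rw [← mem_nilradical, nilradical, ← Ideal.sInf_minimalPrimes, Ideal.mem_sInf]
    intro I hI
    rw [map_prod]
    exact I.mem_of_dvd (Finset.dvd_prod_of_mem _ (Finset.mem_univ (⟨I, hI⟩ : minimalPrimes R)))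
      (hmem ⟨I, hI⟩)
  obtain ⟨k, hk⟩ := hnil
  refine ⟨(∏ P, Q P) ^ k, (Polynomial.monic_prod_of_monic _ _ fun P _ => hQ1 P).pow k, ?_⟩
  rw [← Polynomial.aeval_def, map_pow, hk]

end Pool.Agent.TreeQ
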