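import Mathlib
import Pool.Agent.Lib.MP_8f66f0_al_TreeQ.Red
import Pool.Agent.Lib.MP_8f66f0_al_TreeQ.ValAll
import Pool.Agent.Lib.MP_8f66f0_al_TreeQ.Zab
import Pool.Agent.Lib.MP_8f66f0_al_Tree.AllP

/-! The reduction theorem for representations in `GL_2` of arbitrary commutative rings. -/

set_option autoImplicit false

namespace Pool.Agent.TreeQ

theorem valR0_all : S_valR0 := fun R _ hft =>
  valR0 TreeC.val_all (TreeC.ext TreeC.dvr) TreeC.eval R hft

theorem red_all : S_red :=
  red (zab zr) (TreeC.descP TreeC.gl_all (TreeC.glst TreeC.nm)) valR0_all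

end Pool.Agent.TreeQ
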