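import Pool.Agent.Lib.MP_8f66f0_al_TreeQ.Spec

/-! The Farey tree: basic facts on the forms. -/

set_option autoImplicit false

namespace Pool.Agent.TreeQ

open Pool.Agent.TreeC Pointwise

/-- The entry of an element of `GL_2(ℤ)`. -/
def en (g : GZ) (i j : Fin 2) : ℤ := (g : Matrix (Fin 2) (Fin 2) ℤ) i j

theorem en_mul (g h : GZ) (i j : Fin 2) :
    en (g * h) i j = en g i 0 * en h 0 j + en g i 1 * en h 1 j := by
  unfold en
  rw [Units.val_mul, Matrix.mul_apply, Fin.sum_univ_two]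

theorem en_one (i j : Fin 2) : en 1 i j = if i = j then 1 else 0 := by
  unfold en
  rw [Units.val_one, Matrix.one_apply]

theorem en_det (g : GZ) : (en g 0 0 * en g 1 1 - en g 0 1 * en g 1 0) ^ 2 = 1 := by
  have h1 : (g : Matrix (Fin 2) (Fin 2) ℤ).det ^ 2 = 1 := by
    have hu : IsUnit (g : Matrix (Fin 2) (Fin 2) ℤ).det :=
      (Matrix.isUnit_iff_isUnit_det _).1 g.isUnit
    rcases Int.isUnit_iff.1 hu with h | h
    · rw [h]
      norm_num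
    · rw [h]
      norm_num
  rw [Matrix.det_fin_two] at h1
  exact h1

theorem gm_symm (t : Bool) (a b : Fin 2 → ℤ) : gm t a b = gm t b a := by
  unfold gm
  split_ifs <;> ring

theorem qf_eq (x : FV) (p : GZ) (i j : Fin 2) :
    qf x p i j = gm x.t (fun k => en (x.u⁻¹ * p) k i) (fun k => en (x.u⁻¹ * p) k j) := rfl

theorem qf_symm (x : FV) (p : GZ) (i j : Fin 2) : qf x p i j = qf x p j i := by
  rw [qf_eq, qf_eq, gm_symm]

/-- The transformation law. -/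
theorem qf_mul (x : FV) (p c : GZ) (i j : Fin 2) :
    qf x (p * c) i j = en c 0 i * en c 0 j * qf x p 0 0 +
      (en c 0 i * en c 1 j + en c 1 i * en c 0 j) * qf x p 0 1 +
      en c 1 i * en c 1 j * qf x p 1 1 := by
  have h1 : x.u⁻¹ * (p * c) = (x.u⁻¹ * p) * c := (mul_assoc _ _ _).symm
  rw [qf_eq, qf_eq, qf_eq, qf_eq, h1]
  obtain ⟨m, hm⟩ : ∃ m, m = x.u⁻¹ * p := ⟨_, rfl⟩
  rw [← hm]
  have h2 : ∀ i j : Fin 2, en (m * c) i j = en m i 0 * en c 0 j + en m i 1 * en c 1 j :=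
    fun i j => en_mul m c i j
  unfold gm
  split_ifs
  · simp only [h2]
    ring
  · simp only [h2]
    ring

theorem gm_ge (t : Bool) (a : Fin 2 → ℤ) : a 0 ^ 2 + a 1 ^ 2 ≤ gm t a a := by
  unfold gm
  split_ifs
  · nlinarith [sq_nonneg (a 0 - a 1)]
  · nlinarith

theorem qf_ge (x : FV) (p : GZ) (i : Fin 2) :
    en (x.u⁻¹ * p) 0 i ^ 2 + en (x.u⁻¹ * p) 1 i ^ 2 ≤ qf x p i i := by
  rw [qf_eq]
  exact gm_ge x.t fun k => en (x.u⁻¹ * p) k i

theorem qf_pos (x : FV) (p : GZ) (i : Fin 2) : 0 < qf x p i i := by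
  have h1 := qf_ge x p i
  have h2 := en_det (x.u⁻¹ * p)
  by_contra h
  have h3 : en (x.u⁻¹ * p) 0 i ^ 2 + en (x.u⁻¹ * p) 1 i ^ 2 ≤ 0 := h1.trans (not_lt.1 h)
  have h6 := sq_nonneg (en (x.u⁻¹ * p) 0 i)
  have h7 := sq_nonneg (en (x.u⁻¹ * p) 1 i)
  have h4 : en (x.u⁻¹ * p) 0 i = 0 := pow_eq_zero_iff (two_ne_zero) |>.1 (by linarith)
  have h5 : en (x.u⁻¹ * p) 1 i = 0 := pow_eq_zero_iff (two_ne_zero) |>.1 (by linarith)
  fin_cases i
  · have h4' : en (x.u⁻¹ * p) 0 0 = 0 := h4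
    have h5' : en (x.u⁻¹ * p) 1 0 = 0 := h5
    rw [h4', h5'] at h2
    simp at h2
  · have h4' : en (x.u⁻¹ * p) 0 1 = 0 := h4
    have h5' : en (x.u⁻¹ * p) 1 1 = 0 := h5
    rw [h4', h5'] at h2
    simp at h2

theorem qf_smul (g : GZ) (x : FV) (p : GZ) (i j : Fin 2) : qf (g • x) (g * p) i j = qf x p i j := by
  have h1 : (g • x).u⁻¹ * (g * p) = x.u⁻¹ * p := by
    rw [FV.smul_def]
    show (g * x.u)⁻¹ * (g * p) = x.u⁻¹ * p
    group
  rw [qf_eq, qf_eq, h1]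
  rfl

theorem qf_self (p : GZ) (t : Bool) (i j : Fin 2) :
    qf ⟨p, t⟩ p i j = gm t (fun k => if k = i then 1 else 0) (fun k => if k = j then 1 else 0) := by
  rw [qf_eq]
  show gm t (fun k => en (p⁻¹ * p) k i) (fun k => en (p⁻¹ * p) k j) = _
  rw [inv_mul_cancel]
  simp only [en_one]

theorem qf_true (p : GZ) : qf ⟨p, true⟩ p 0 0 = 2 ∧ qf ⟨p, true⟩ p 0 1 = -1 ∧
    qf ⟨p, true⟩ p 1 1 = 2 := by
  rw [qf_self, qf_self, qf_self]
  simp [gm]

theorem qf_false (p : GZ) : qf ⟨p, false⟩ p 0 0 = 1 ∧ qf ⟨p, false⟩ p 0 1 = 0 ∧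
    qf ⟨p, false⟩ p 1 1 = 1 := by
  rw [qf_self, qf_self, qf_self]
  simp [gm]

/-- The determinant of the form. -/
theorem qf_det (x : FV) (p : GZ) :
    qf x p 0 0 * qf x p 1 1 - qf x p 0 1 ^ 2 = if x.t then 3 else 1 := by
  have h := en_det (x.u⁻¹ * p)
  rw [qf_eq, qf_eq, qf_eq]
  obtain ⟨m, hm⟩ : ∃ m, m = x.u⁻¹ * p := ⟨_, rfl⟩
  rw [← hm] at h ⊢
  unfold gm
  split_ifs
  · linear_combination 3 * h
  · linear_combination h

/-- The mixed discriminant of the forms of `x` and `y`. -/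
def mxd (x y : FV) (p : GZ) : ℤ :=
  qf x p 0 0 * qf y p 1 1 + qf x p 1 1 * qf y p 0 0 - 2 * (qf x p 0 1 * qf y p 0 1)

theorem mxd_mul (x y : FV) (p c : GZ) : mxd x y (p * c) = mxd x y p := by
  have h := en_det c
  unfold mxd
  rw [qf_mul x p c, qf_mul x p c, qf_mul x p c, qf_mul y p c, qf_mul y p c, qf_mul y p c]
  linear_combination (qf x p 0 0 * qf y p 1 1 + qf x p 1 1 * qf y p 0 0 -
    2 * (qf x p 0 1 * qf y p 0 1)) * h

theorem mxd_eq (x y : FV) (p p' : GZ) : mxd x y p' = mxd x y p := by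
  have h := mxd_mul x y p (p⁻¹ * p')
  rwa [mul_inv_cancel_left] at h

theorem mem_Fc (x : FV) (p : GZ) : x ∈ Fc p ↔ qf x p 0 1 < 0 := Iff.rfl

theorem smul_mem_Fc (g : GZ) (x : FV) (p : GZ) : g • x ∈ Fc (g * p) ↔ x ∈ Fc p := by
  rw [mem_Fc, mem_Fc, qf_smul]

theorem Fc_smul (g : GZ) (p : GZ) : g • Fc p = Fc (g * p) := by
  ext x
  rw [Set.mem_smul_set_iff_inv_smul_mem, ← smul_mem_Fc g, smul_inv_smul]

end Pool.Agent.TreeQ
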