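import Pool.Agent.Lib.MP_8f66f0_al_TreeQ.Spec
import Pool.Agent.Lib.MP_8f66f0_al_Tree.Eval

/-! The valuation of the total degree on the rational functions over the integers. (helper73) -/

set_option autoImplicit false

namespace Pool.Agent.TreeQ

open Pool.Agent.TreeC

open MvPolynomial Classical in
/-- The valuation `exp (totalDegree f)` on the polynomials. -/
private noncomputable def vdegZ (σ : Type) :
    Valuation (MvPolynomial σ ℤ) (WithZero (Multiplicative ℤ)) where
  toFun f := if f = 0 then 0 else WithZero.exp (f.totalDegree : ℤ)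
  map_zero' := by simp
  map_one' := by
    rw [if_neg one_ne_zero]
    rw [totalDegree_one]
    rfl
  map_mul' f g := by
    by_cases hf : f = 0
    · simp [hf]
    by_cases hg : g = 0
    · simp [hg]
    rw [if_neg (mul_ne_zero hf hg), if_neg hf, if_neg hg, totalDegree_mul_of_isDomain hf hg,
      Nat.cast_add, WithZero.exp_add]
  map_add_le_max' f g := by
    by_cases hf : f = 0
    · simp [hf]
    by_cases hg : g = 0
    · simp [hg]
    by_cases hfg : f + g = 0
    · rw [if_pos hfg]
      exact zero_le
    rw [if_neg hfg, if_neg hf, if_neg hg, le_max_iff, WithZero.exp_le_exp, WithZero.exp_le_exp]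
    have h := totalDegree_add f g
    rw [le_max_iff] at h
    rcases h with h | h
    · left
      exact_mod_cast h
    · right
      exact_mod_cast h

private theorem vdegZ_apply (σ : Type) (f : MvPolynomial σ ℤ) (hf : f ≠ 0) :
    vdegZ σ f = WithZero.exp (f.totalDegree : ℤ) := by
  classical
  change (if f = 0 then 0 else WithZero.exp (f.totalDegree : ℤ)) = _
  rw [if_neg hf]

private theorem vdegZ_le (σ : Type) :
    nonZeroDivisors (MvPolynomial σ ℤ) ≤ (vdegZ σ).supp.primeCompl := by
  intro f hf
  have hf0 : f ≠ 0 := nonZeroDivisors.ne_zero hf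
  intro h
  have h1 : vdegZ σ f = 0 := h
  rw [vdegZ_apply σ f hf0] at h1
  exact WithZero.exp_ne_zero h1

theorem vinfZ : S_vinfZ := by
  intro σ
  obtain ⟨w, hw⟩ := eval (FractionRing (MvPolynomial σ ℤ))
    ((vdegZ σ).extendToLocalization (vdegZ_le σ) (FractionRing (MvPolynomial σ ℤ)))
  refine ⟨w, fun f hf => ?_⟩
  rw [hw, Valuation.extendToLocalization_apply_map_apply] at hf
  by_cases hf0 : f = 0
  · exact ⟨0, by rw [hf0, MvPolynomial.C_0]⟩
  rw [vdegZ_apply σ f hf0, ← WithZero.exp_zero, WithZero.exp_le_exp] at hf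
  have h1 : f.totalDegree = 0 := by
    have : (f.totalDegree : ℤ) ≤ 0 := hf
    omega
  exact ⟨_, MvPolynomial.totalDegree_eq_zero_iff_eq_C.1 h1⟩

end Pool.Agent.TreeQ
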